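import Pool.Agent.Lib.MP_1d7982_pr.Semi

open MeasureTheory ProbabilityTheory Filter Topology Set
open scoped NNReal ENNReal

namespace Pool.Agent.Lib.MP_1d7982_pr

/-- tent function of radius `r` -/
noncomputable def tent (r : ℝ) (x : T3) : ℝ := max 0 (1 - ‖x‖ / r)

theorem tent_nonneg (r : ℝ) (x : T3) : 0 ≤ tent r x := le_max_left _ _

theorem tent_le_one {r : ℝ} (hr : 0 < r) (x : T3) : tent r x ≤ 1 := by
  unfold tent
  apply max_le zero_le_one
  have : 0 ≤ ‖x‖ / r := by positivity
  linarith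

theorem continuous_tent (r : ℝ) : Continuous (tent r) := by
  unfold tent
  fun_prop

theorem tent_eq_zero {r : ℝ} (hr : 0 < r) {x : T3} (hx : r ≤ ‖x‖) : tent r x = 0 := by
  unfold tent
  apply max_eq_left
  have : 1 ≤ ‖x‖ / r := by rwa [le_div_iff₀ hr, one_mul]
  linarith

theorem tent_ge_half {r : ℝ} (hr : 0 < r) {x : T3} (hx : ‖x‖ ≤ r / 2) : 1 / 2 ≤ tent r x := by
  unfold tent
  apply le_max_of_le_right
  have : ‖x‖ / r ≤ 1 / 2 := by rw [div_le_iff₀ hr]; linarith
  linarith

theorem tent_lip {r : ℝ} (hr : 0 < r) (x y : T3) : |tent r x - tent r y| ≤ ‖x - y‖ / r := by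
  unfold tent
  rw [max_comm 0, max_comm 0]
  refine (abs_max_sub_max_le_abs _ _ _ ).trans ?_
  have h1 : (1 - ‖x‖ / r) - (1 - ‖y‖ / r) = (‖y‖ - ‖x‖) / r := by ring
  rw [h1, abs_div, abs_of_pos hr]
  apply div_le_div_of_nonneg_right _ hr.le
  rw [abs_sub_comm]
  exact abs_norm_sub_norm_le x y

/-- the shift vector `(a, 0, 0)` -/
noncomputable def vec (a : ℝ) : T3 := fun i => if i = 0 then ((a : ℝ) : UnitAddCircle) else 0

/-- bump function: difference of two tents of radius `r` with centres `c` and `c + (2r,0,0)` -/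
noncomputable def bump (r : ℝ) (c : T3) : C(T3, ℝ) where
  toFun x := tent r (x - c) - tent r (x - c - vec (2 * r))
  continuous_toFun := by
    have := continuous_tent r
    fun_prop

theorem bump_apply (r : ℝ) (c x : T3) :
    bump r c x = tent r (x - c) - tent r (x - c - vec (2 * r)) := rfl

theorem bump_norm {r : ℝ} (hr : 0 < r) (c : T3) : ‖bump r c‖ ≤ 1 := by
  rw [ContinuousMap.norm_le _ zero_le_one]
  intro x
  rw [bump_apply, Real.norm_eq_abs, abs_le]
  have h1 := tent_nonneg r (x - c)
  have h2 := tent_le_one hr (x - c)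
  have h3 := tent_nonneg r (x - c - vec (2 * r))
  have h4 := tent_le_one hr (x - c - vec (2 * r))
  constructor <;> linarith

theorem integrable_tent (r : ℝ) (c : T3) : Integrable (fun x => tent r (x - c)) (volume : Measure T3) := by
  have hc := continuous_tent r
  exact integrable_C volume ⟨fun x => tent r (x - c), by fun_prop⟩

theorem bump_integral (r : ℝ) (c : T3) : ∫ x, bump r c x = 0 := by
  simp only [bump_apply]
  have h1 : ∀ x : T3, x - c - vec (2 * r) = x - (c + vec (2 * r)) := fun x => by abel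
  simp only [h1]
  rw [integral_sub (integrable_tent r c) (integrable_tent r _)]
  rw [integral_sub_right_eq_self (μ := (volume : Measure T3)) (fun x => tent r x) c,
    integral_sub_right_eq_self (μ := (volume : Measure T3)) (fun x => tent r x) (c + vec (2 * r))]
  simp

theorem norm_coe_real {x : ℝ} (hx0 : 0 ≤ x) (hx : x ≤ 1 / 2) : ‖((x : ℝ) : UnitAddCircle)‖ = x := by
  rw [(AddCircle.norm_coe_eq_abs_iff 1 one_ne_zero).mpr (by rw [abs_of_nonneg hx0]; simpa using hx),
    abs_of_nonneg hx0]

theorem norm_vec {a : ℝ} (ha0 : 0 ≤ a) (ha : a ≤ 1 / 2) : ‖vec a‖ = a := by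
  apply le_antisymm
  · rw [pi_norm_le_iff_of_nonneg ha0]
    intro i
    unfold vec
    split_ifs
    · rw [norm_coe_real ha0 ha]
    · simpa using ha0
  · have h1 := norm_le_pi_norm (vec a) 0
    unfold vec at h1 ⊢
    simp only [if_true] at h1
    rwa [norm_coe_real ha0 ha] at h1

theorem volume_closedBall3 (c : T3) {ρ : ℝ} (hρ : 0 ≤ ρ) (hρ2 : ρ ≤ 1 / 2) :
    (volume : Measure T3).real (Metric.closedBall c ρ) = (2 * ρ) ^ 3 := by
  rw [closedBall_pi c hρ, Measure.real, volume_pi_pi]
  simp only [AddCircle.volume_closedBall, Finset.prod_const, Finset.card_univ, Fintype.card_fin]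
  rw [min_eq_right (by linarith), ENNReal.toReal_pow, ENNReal.toReal_ofReal (by linarith)]

theorem bump_sq {r : ℝ} (hr : 0 < r) (hr2 : r ≤ 1 / 4) (c : T3) :
    r ^ 3 / 4 ≤ ∫ x, bump r c x * bump r c x := by
  have h1 : ∀ x ∈ Metric.closedBall c (r / 2), (1 / 4 : ℝ) ≤ bump r c x * bump r c x := by
    intro x hx
    rw [mem_closedBall_iff_norm] at hx
    have h2 := tent_ge_half hr hx
    have h3 : tent r (x - c - vec (2 * r)) = 0 := by
      apply tent_eq_zero hr
      have h4 := norm_vec (a := 2 * r) (by linarith) (by linarith)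
      have h5 := norm_sub_norm_le (vec (2 * r)) (x - c)
      rw [norm_sub_rev (vec (2 * r)) (x - c)] at h5
      linarith
    rw [bump_apply, h3]
    nlinarith
  have h6 : ∫ x in Metric.closedBall c (r / 2), (1 / 4 : ℝ) ≤
      ∫ x in Metric.closedBall c (r / 2), bump r c x * bump r c x := by
    apply setIntegral_mono_on
    · exact integrableOn_const (by finiteness)
    · exact (integrable_C volume (bump r c * bump r c)).integrableOn
    · exact Metric.isClosed_closedBall.measurableSet
    · exact h1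
  rw [setIntegral_const, volume_closedBall3 c (by linarith) (by linarith), smul_eq_mul] at h6
  have h7 : ∫ x in Metric.closedBall c (r / 2), bump r c x * bump r c x ≤
      ∫ x, bump r c x * bump r c x :=
    setIntegral_le_integral (integrable_C volume (bump r c * bump r c))
      (Eventually.of_forall (fun x => mul_self_nonneg _))
  have h8 : (2 * (r / 2)) ^ 3 * (1 / 4) = r ^ 3 / 4 := by ring
  linarith

theorem tent_diff {r : ℝ} (hr : 0 < r) (hr2 : r ≤ 1 / 4) (c y : T3) :
    ∫ x, (tent r (x - c) - tent r (x + y - c)) ^ 2 ≤ 16 * r * ‖y‖ ^ 2 := by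
  have hpt : ∀ x : T3, (tent r (x - c) - tent r (x + y - c)) ^ 2 ≤
      (‖y‖ / r) ^ 2 * ((Metric.closedBall c r).indicator (fun _ => (1:ℝ)) x +
        (Metric.closedBall (c - y) r).indicator (fun _ => (1:ℝ)) x) := by
    intro x
    have h1 := tent_lip hr (x - c) (x + y - c)
    have h2 : ‖(x - c) - (x + y - c)‖ = ‖y‖ := by
      rw [show (x - c) - (x + y - c) = -y by abel, norm_neg]
    rw [h2] at h1
    have h3 : (tent r (x - c) - tent r (x + y - c)) ^ 2 ≤ (‖y‖ / r) ^ 2 := by
      rw [← sq_abs]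
      exact pow_le_pow_left₀ (abs_nonneg _) h1 2
    by_cases hx1 : x ∈ Metric.closedBall c r
    · rw [Set.indicator_of_mem hx1]
      have h4 : 0 ≤ (Metric.closedBall (c - y) r).indicator (fun _ => (1:ℝ)) x :=
        Set.indicator_nonneg (fun _ _ => zero_le_one) _
      have h5 : 0 ≤ (‖y‖ / r) ^ 2 := by positivity
      nlinarith
    · by_cases hx2 : x ∈ Metric.closedBall (c - y) r
      · rw [Set.indicator_of_mem hx2, Set.indicator_of_notMem hx1]
        linarith
      · rw [Set.indicator_of_notMem hx2, Set.indicator_of_notMem hx1]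
        rw [mem_closedBall_iff_norm, not_le] at hx1 hx2
        rw [tent_eq_zero hr hx1.le, tent_eq_zero hr (by
          rw [show x + y - c = x - (c - y) by abel]; exact hx2.le)]
        simp
  have hc := continuous_tent r
  have hi1 : Integrable (fun x => (tent r (x - c) - tent r (x + y - c)) ^ 2) (volume : Measure T3) :=
    integrable_C volume ⟨fun x => (tent r (x - c) - tent r (x + y - c)) ^ 2, by fun_prop⟩
  have hm : ∀ d : T3, Integrable ((Metric.closedBall d r).indicator (fun _ => (1:ℝ)))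
      (volume : Measure T3) := fun d =>
    (integrable_const 1).indicator Metric.isClosed_closedBall.measurableSet
  have hI : ∀ d : T3, ∫ x, (Metric.closedBall d r).indicator (fun _ => (1:ℝ)) x = (2 * r) ^ 3 := by
    intro d
    rw [integral_indicator Metric.isClosed_closedBall.measurableSet, setIntegral_const,
      volume_closedBall3 d hr.le (by linarith)]
    simp
  have h1 := integral_mono hi1 (((hm c).add (hm (c - y))).const_mul ((‖y‖ / r) ^ 2)) hpt
  have h2 : ∫ x, (‖y‖ / r) ^ 2 * ((Metric.closedBall c r).indicator (fun _ => (1:ℝ)) x +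
        (Metric.closedBall (c - y) r).indicator (fun _ => (1:ℝ)) x) = 16 * r * ‖y‖ ^ 2 := by
    rw [integral_const_mul, integral_add (hm c) (hm (c - y)), hI, hI]
    field_simp
    ring
  exact h1.trans (le_of_eq h2)

theorem bump_diff {r : ℝ} (hr : 0 < r) (hr2 : r ≤ 1 / 4) (c y : T3) :
    ∫ x, (bump r c x - bump r c (x + y)) ^ 2 ≤ 64 * r * ‖y‖ ^ 2 := by
  have hc := continuous_tent r
  have hi : ∀ c : T3, Integrable (fun x => (tent r (x - c) - tent r (x + y - c)) ^ 2)
      (volume : Measure T3) := fun c =>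
    integrable_C volume ⟨fun x => (tent r (x - c) - tent r (x + y - c)) ^ 2, by fun_prop⟩
  have h1 : ∫ x, (bump r c x - bump r c (x + y)) ^ 2 ≤
      ∫ x, (2 * (tent r (x - c) - tent r (x + y - c)) ^ 2 +
        2 * (tent r (x - (c + vec (2 * r))) - tent r (x + y - (c + vec (2 * r)))) ^ 2) := by
    apply integral_mono
    · exact integrable_C volume ⟨fun x => (bump r c x - bump r c (x + y)) ^ 2, by fun_prop⟩
    · exact ((hi c).const_mul 2).add ((hi (c + vec (2 * r))).const_mul 2)
    · intro x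
      simp only [bump_apply]
      rw [show x - c - vec (2 * r) = x - (c + vec (2 * r)) by abel,
        show x + y - c - vec (2 * r) = x + y - (c + vec (2 * r)) by abel]
      nlinarith [sq_nonneg ((tent r (x - c) - tent r (x + y - c)) +
        (tent r (x - (c + vec (2 * r))) - tent r (x + y - (c + vec (2 * r)))))]
  rw [integral_add ((hi c).const_mul 2) ((hi (c + vec (2 * r))).const_mul 2), integral_const_mul,
    integral_const_mul] at h1
  have h2 := tent_diff hr hr2 c y
  have h3 := tent_diff hr hr2 (c + vec (2 * r)) y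
  linarith

/-- second moment of the wrapped Gaussian -/
theorem gam_norm_sq (u : ℝ≥0) : ∫ y, ‖y‖ ^ 2 ∂(gam u) ≤ 3 * u := by
  rw [gam_eq]
  have hm : Measurable (fun (z : Fin 3 → ℝ) (i : Fin 3) => ((z i : ℝ) : UnitAddCircle)) := by
    apply measurable_pi_lambda
    intro i
    exact meas_coe.comp (measurable_pi_apply i)
  rw [integral_map hm.aemeasurable (by fun_prop)]
  have hint : ∀ i : Fin 3, Integrable (fun z : Fin 3 → ℝ => (z i) ^ 2)
      (Measure.pi (fun _ : Fin 3 => gaussianReal 0 u)) := by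
    intro i
    have h1 : Integrable (fun x : ℝ => x ^ 2) (gaussianReal 0 u) :=
      (memLp_id_gaussianReal 2).integrable_sq
    exact (measurePreserving_eval (fun _ : Fin 3 => gaussianReal 0 u) i).integrable_comp_of_integrable h1
  have h2 : ∀ i : Fin 3, ∫ z : Fin 3 → ℝ, (z i) ^ 2
      ∂(Measure.pi (fun _ : Fin 3 => gaussianReal 0 u)) = u := by
    intro i
    have h3 := (measurePreserving_eval (fun _ : Fin 3 => gaussianReal 0 u) i).map_eq
    have h4 : ∫ z : Fin 3 → ℝ, (z i) ^ 2 ∂(Measure.pi (fun _ : Fin 3 => gaussianReal 0 u)) =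
        ∫ x, x ^ 2 ∂(gaussianReal 0 u) := by
      have h6 : ∫ x, x ^ 2 ∂(gaussianReal 0 u) = ∫ x, x ^ 2
          ∂(Measure.map (Function.eval i) (Measure.pi fun _ : Fin 3 => gaussianReal 0 u)) := by
        rw [h3]
      rw [h6, integral_map (measurable_pi_apply i).aemeasurable (by fun_prop)]
    rw [h4]
    have h5 := variance_id_gaussianReal (μ := 0) (v := u)
    rw [variance_eq_integral measurable_id.aemeasurable, ] at h5
    simpa [integral_id_gaussianReal] using h5
  have h6 : ∫ z : Fin 3 → ℝ, ‖(fun i => ((z i : ℝ) : UnitAddCircle))‖ ^ 2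
      ∂(Measure.pi (fun _ : Fin 3 => gaussianReal 0 u)) ≤
      ∫ z : Fin 3 → ℝ, ∑ i, (z i) ^ 2 ∂(Measure.pi (fun _ : Fin 3 => gaussianReal 0 u)) := by
    apply integral_mono_of_nonneg (Eventually.of_forall (fun z => by positivity))
    · exact integrable_finsetSum _ (fun i _ => hint i)
    · filter_upwards with z
      have h7 : ‖(fun i => ((z i : ℝ) : UnitAddCircle))‖ ≤ Real.sqrt (∑ i, (z i) ^ 2) := by
        rw [pi_norm_le_iff_of_nonneg (Real.sqrt_nonneg _)]
        intro i
        have h8 : ‖((z i : ℝ) : UnitAddCircle)‖ ≤ |z i| := by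
          rw [UnitAddCircle.norm_eq]
          have := round_le (z i) 0
          simpa using this
        refine h8.trans ?_
        rw [← Real.sqrt_sq_eq_abs]
        apply Real.sqrt_le_sqrt
        exact Finset.single_le_sum (f := fun i => (z i) ^ 2) (fun j _ => sq_nonneg _)
          (Finset.mem_univ i)
      calc ‖(fun i => ((z i : ℝ) : UnitAddCircle))‖ ^ 2 ≤ (Real.sqrt (∑ i, (z i) ^ 2)) ^ 2 :=
            pow_le_pow_left₀ (norm_nonneg _) h7 2
        _ = ∑ i, (z i) ^ 2 := Real.sq_sqrt (Finset.sum_nonneg (fun i _ => sq_nonneg _))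
  refine h6.trans ?_
  rw [integral_finsetSum _ (fun i _ => hint i)]
  simp only [h2]
  simp

theorem bump_low {r : ℝ} (hr : 0 < r) (hr2 : r ≤ 1 / 4) (c : T3) (u : ℝ≥0)
    (hu : (u : ℝ) ≤ r ^ 2 / 768) :
    r ^ 3 / 8 ≤ ∫ x, bump r c x * Pt u (bump r c) x := by
  set φ := bump r c with hφ
  have hb : ∀ (g : C(T3 × T3, ℝ)), Integrable (fun p : T3 × T3 => g p)
      ((volume : Measure T3).prod (gam u)) := fun g =>
    Integrable.of_bound (by fun_prop) ‖g‖ (Eventually.of_forall (fun p => g.norm_coe_le_norm _))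
  have hi1 := hb ⟨fun p => φ p.1 * φ (p.1 + p.2), by fun_prop⟩
  have hi2 := hb ⟨fun p => φ p.1 ^ 2, by fun_prop⟩
  have hi3 := hb ⟨fun p => φ (p.1 + p.2) ^ 2, by fun_prop⟩
  have hi4 := hb ⟨fun p => (φ p.1 - φ (p.1 + p.2)) ^ 2, by fun_prop⟩
  simp only [ContinuousMap.coe_mk] at hi1 hi2 hi3 hi4
  have e1 : ∫ x, φ x * Pt u φ x = ∫ p : T3 × T3, φ p.1 * φ (p.1 + p.2)
      ∂((volume : Measure T3).prod (gam u)) := by
    rw [integral_prod _ hi1]
    apply integral_congr_ae
    filter_upwards with x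
    rw [Pt_apply, integral_const_mul]
  have e2 : ∫ p : T3 × T3, φ p.1 ^ 2 ∂((volume : Measure T3).prod (gam u)) = ∫ x, φ x * φ x := by
    rw [integral_prod _ hi2]
    apply integral_congr_ae
    filter_upwards with x
    simp [pow_two]
  have e3 : ∫ p : T3 × T3, φ (p.1 + p.2) ^ 2 ∂((volume : Measure T3).prod (gam u)) =
      ∫ x, φ x * φ x := by
    rw [integral_prod_symm _ hi3]
    have : ∀ y : T3, ∫ x : T3, φ (x + y) ^ 2 = ∫ x, φ x * φ x := by
      intro y
      rw [integral_add_right_eq_self (μ := (volume : Measure T3)) (fun x => φ x ^ 2) y]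
      simp only [pow_two]
    simp only [this]
    simp
  have e4 : ∫ p : T3 × T3, (φ p.1 - φ (p.1 + p.2)) ^ 2 ∂((volume : Measure T3).prod (gam u)) ≤
      64 * r * (3 * u) := by
    rw [integral_prod_symm _ hi4]
    have h1 : ∫ y, (∫ x, (φ x - φ (x + y)) ^ 2) ∂(gam u) ≤ ∫ y, 64 * r * ‖y‖ ^ 2 ∂(gam u) := by
      apply integral_mono_of_nonneg
      · exact Eventually.of_forall (fun y => integral_nonneg (fun x => sq_nonneg _))
      · exact integrable_C (gam u) ⟨fun y => 64 * r * ‖y‖ ^ 2, by fun_prop⟩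
      · exact Eventually.of_forall (fun y => bump_diff hr hr2 c y)
    refine h1.trans ?_
    rw [integral_const_mul]
    exact mul_le_mul_of_nonneg_left (gam_norm_sq u) (by positivity)
  have e5 : ∫ p : T3 × T3, φ p.1 * φ (p.1 + p.2) ∂((volume : Measure T3).prod (gam u)) =
      (1 / 2) * ((∫ p : T3 × T3, φ p.1 ^ 2 ∂((volume : Measure T3).prod (gam u))) +
        (∫ p : T3 × T3, φ (p.1 + p.2) ^ 2 ∂((volume : Measure T3).prod (gam u))) -
        (∫ p : T3 × T3, (φ p.1 - φ (p.1 + p.2)) ^ 2 ∂((volume : Measure T3).prod (gam u)))) := by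
    have hi23 : Integrable (fun p : T3 × T3 => φ p.1 ^ 2 + φ (p.1 + p.2) ^ 2)
      ((volume : Measure T3).prod (gam u)) := hi2.add hi3
    rw [← integral_add hi2 hi3, ← integral_sub hi23 hi4, ← integral_const_mul]
    apply integral_congr_ae
    filter_upwards with p
    ring
  rw [e1, e5, e2, e3]
  have h2 := bump_sq hr hr2 c
  rw [← hφ] at h2
  have h3 : 64 * r * (3 * (u:ℝ)) ≤ r ^ 3 / 4 := by
    have : 64 * r * (3 * (u:ℝ)) ≤ 64 * r * (3 * (r ^ 2 / 768)) := by
      apply mul_le_mul_of_nonneg_left _ (by positivity)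
      linarith
    refine this.trans (le_of_eq ?_)
    ring
  linarith

end Pool.Agent.Lib.MP_1d7982_pr
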