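import Mathlib

open MeasureTheory ProbabilityTheory Filter Topology Set
open scoped NNReal ENNReal

namespace Pool.Agent.Lib.MP_1d7982_pr

/-- The torus `ℝ³/ℤ³`. -/
abbrev T3 : Type := Fin 3 → UnitAddCircle

variable {Ω : Type*} [MeasurableSpace Ω]

/-- Standard Brownian motion in `ℝ³`: starts at `0`, independent increments, the increment over
`[s,t]` has law `N(0, (t-s) I)`, and almost surely continuous paths. -/
structure IsBrownian3 (W : ℝ≥0 → Ω → Fin 3 → ℝ) (P : Measure Ω) : Prop where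
  aemeas : ∀ t, AEMeasurable (W t) P
  zero : ∀ᵐ ω ∂P, W 0 ω = 0
  indep : HasIndepIncrements W P
  gauss : ∀ s t, s ≤ t → P.map (fun ω => W t ω - W s ω) =
    Measure.pi (fun _ : Fin 3 => gaussianReal 0 (t - s))
  cont : ∀ᵐ ω ∂P, Continuous (fun t => W t ω)

/-- Stationary Brownian motion on the torus `ℝ³/ℤ³`: the projection of `U + W`, where `W` is a
standard Brownian motion in `ℝ³` and `U` is uniform on the torus and independent of `W`. -/
def IsStationaryBM (B : ℝ≥0 → Ω → T3) (P : Measure Ω) : Prop :=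
  ∃ (U : Ω → T3) (W : ℝ≥0 → Ω → Fin 3 → ℝ), IsBrownian3 W P ∧ AEMeasurable U P ∧
    P.map U = volume ∧ IndepFun U (fun ω t => W t ω) P ∧
    ∀ᵐ ω ∂P, ∀ t, B t ω = fun i => U ω i + ((W t ω i : ℝ) : UnitAddCircle)

/-- The flat quotient distance on `ℝ³/ℤ³` (the norm on `ℝ/ℤ` is the distance to the nearest
integer). -/
noncomputable def tdist (x y : T3) : ℝ := Real.sqrt (∑ i, ‖x i - y i‖ ^ 2)

/-- `W^p(μ, ν)`: the infimum over the couplings of `μ` and `ν` of `∫ |x-y|^p dπ`. -/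
noncomputable def transportCost (p : ℝ) (μ ν : Measure T3) : ℝ≥0∞ :=
  ⨅ (π : Measure (T3 × T3)) (_ : π.map Prod.fst = μ ∧ π.map Prod.snd = ν),
    ∫⁻ z, ENNReal.ofReal (tdist z.1 z.2 ^ p) ∂π

/-- `W^p_{T³}(μ) = W^p(μ, μ(T³) Leb)`. -/
noncomputable def torusCost (p : ℝ) (μ : Measure T3) : ℝ≥0∞ :=
  transportCost p μ (μ Set.univ • (volume : Measure T3))

/-- The occupation measure `μ_T = ∫_0^T δ_{B_t} dt`: the image of Lebesgue measure on `[0,T]`
under the path. -/
noncomputable def occupation (B : ℝ≥0 → Ω → T3) (T : ℝ) (ω : Ω) : Measure T3 :=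
  (volume.restrict (Set.Icc 0 T)).map (fun t : ℝ => B t.toNNReal ω)

end Pool.Agent.Lib.MP_1d7982_pr
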