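import Mathlib

open MeasureTheory Filter Topology Set

namespace Pool.Agent.Lib.MP_1d7982_pr

variable {Ω : Type*} [MeasurableSpace Ω] {P : Measure Ω} [IsProbabilityMeasure P]

/-- A bounded (on compact sets, uniformly) real process with a.s. continuous paths. -/
structure GoodProc (Z : ℝ → Ω → ℝ) (P : Measure Ω) : Prop where
  meas : ∀ t, AEStronglyMeasurable (Z t) P
  cont : ∀ᵐ ω ∂P, Continuous (fun t => Z t ω)
  bdd : ∀ R : ℝ, ∃ M : ℝ, ∀ t, |t| ≤ R → ∀ᵐ ω ∂P, |Z t ω| ≤ M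

theorem GoodProc.bdd' {Z : ℝ → Ω → ℝ} (h : GoodProc Z P) (R : ℝ) :
    ∃ M : ℝ, 0 ≤ M ∧ ∀ᵐ ω ∂P, ∀ t, |t| ≤ R → |Z t ω| ≤ M := by
  obtain ⟨M, hM⟩ := h.bdd (R + 1)
  refine ⟨max M 0, le_max_right _ _, ?_⟩
  have h1 : ∀ᵐ ω ∂P, ∀ q : ℚ, |(q : ℝ)| ≤ R + 1 → |Z q ω| ≤ M := by
    rw [ae_all_iff]
    intro q
    by_cases hq : |(q : ℝ)| ≤ R + 1
    · filter_upwards [hM q hq] with ω hω _ using hω
    · filter_upwards with ω h using absurd h hq
  filter_upwards [h1, h.cont] with ω h1 hc t ht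
  -- approximate t by rationals
  have hcl : IsClosed {s : ℝ | |Z s ω| ≤ M} := isClosed_le (hc.abs) continuous_const
  have hd : t ∈ closure {s : ℝ | |Z s ω| ≤ M} := by
    rw [Metric.mem_closure_iff]
    intro ε hε
    obtain ⟨q, hq1, hq2⟩ := exists_rat_btwn (show t < t + min ε 1 by
      have : 0 < min ε 1 := lt_min hε one_pos
      linarith)
    refine ⟨q, h1 q ?_, ?_⟩
    · have h3 : (q : ℝ) < t + 1 := lt_of_lt_of_le hq2 (by linarith [min_le_right ε 1])
      rw [abs_le] at ht ⊢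
      constructor <;> linarith
    · rw [Real.dist_eq, abs_sub_comm, abs_lt]
      constructor <;> linarith [min_le_left ε 1]
  rw [hcl.closure_eq] at hd
  exact hd.trans (le_max_left _ _)

theorem GoodProc.integrable {Z : ℝ → Ω → ℝ} (h : GoodProc Z P) (t : ℝ) : Integrable (Z t) P := by
  obtain ⟨M, hM⟩ := h.bdd |t|
  refine Integrable.of_bound (h.meas t) M ?_
  filter_upwards [hM t le_rfl] with ω hω
  simpa using hω

theorem GoodProc.mul {Y Z : ℝ → Ω → ℝ} (hY : GoodProc Y P) (hZ : GoodProc Z P) :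
    GoodProc (fun t ω => Y t ω * Z t ω) P := by
  refine ⟨fun t => (hY.meas t).mul (hZ.meas t), ?_, ?_⟩
  · filter_upwards [hY.cont, hZ.cont] with ω h1 h2 using h1.mul h2
  · intro R
    obtain ⟨M, hM⟩ := hY.bdd R
    obtain ⟨N, hN⟩ := hZ.bdd R
    refine ⟨|M| * |N|, fun t ht => ?_⟩
    filter_upwards [hM t ht, hN t ht] with ω h1 h2
    rw [abs_mul]
    exact mul_le_mul (h1.trans (le_abs_self _)) (h2.trans (le_abs_self _)) (abs_nonneg _)
      (abs_nonneg _)

theorem GoodProc.const {X : Ω → ℝ} (hX : AEStronglyMeasurable X P) (M : ℝ)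
    (hb : ∀ᵐ ω ∂P, |X ω| ≤ M) : GoodProc (fun _ ω => X ω) P :=
  ⟨fun _ => hX, by filter_upwards with ω using continuous_const, fun _ => ⟨M, fun _ _ => hb⟩⟩

omit [IsProbabilityMeasure P] in
/-- joint measurability -/
theorem GoodProc.joint {Z : ℝ → Ω → ℝ} (h : GoodProc Z P) (μ : Measure ℝ) [SFinite μ] :
    AEStronglyMeasurable (fun p : ℝ × Ω => Z p.1 p.2) (μ.prod P) := by
  have key : ∀ n : ℕ, AEStronglyMeasurable
      (fun p : ℝ × Ω => Z ((⌊((n : ℝ) + 1) * p.1⌋ : ℝ) / ((n : ℝ) + 1)) p.2) (μ.prod P) := by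
    intro n
    let Z' : ℤ × Ω → ℝ := fun p => (h.meas ((p.1 : ℝ) / ((n : ℝ) + 1))).mk _ p.2
    have hZ' : Measurable Z' := by
      apply measurable_from_prod_countable_right
      intro k
      exact ((h.meas ((k : ℝ) / ((n : ℝ) + 1))).stronglyMeasurable_mk).measurable
    have hfl : Measurable (fun p : ℝ × Ω => (⌊((n : ℝ) + 1) * p.1⌋, p.2)) := by
      refine Measurable.prodMk ?_ measurable_snd
      exact Int.measurable_floor.comp (measurable_const.mul measurable_fst)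
    refine ⟨fun p => Z' (⌊((n : ℝ) + 1) * p.1⌋, p.2), (hZ'.comp hfl).stronglyMeasurable, ?_⟩
    have h1 : ∀ᵐ ω ∂P, ∀ k : ℤ, Z ((k : ℝ) / ((n : ℝ) + 1)) ω = Z' (k, ω) := by
      rw [ae_all_iff]
      intro k
      exact (h.meas ((k : ℝ) / ((n : ℝ) + 1))).ae_eq_mk
    have h2 := Measure.quasiMeasurePreserving_snd (μ := μ) (ν := P) |>.ae h1
    filter_upwards [h2] with p hp
    exact hp _
  refine aestronglyMeasurable_of_tendsto_ae atTop key ?_
  have h2 := Measure.quasiMeasurePreserving_snd (μ := μ) (ν := P) |>.ae h.cont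
  filter_upwards [h2] with p hp
  have h3 : Tendsto (fun n : ℕ => (⌊((n : ℝ) + 1) * p.1⌋ : ℝ) / ((n : ℝ) + 1)) atTop (𝓝 p.1) := by
    rw [tendsto_iff_dist_tendsto_zero]
    refine squeeze_zero (fun _ => dist_nonneg) (fun n => ?_)
      (tendsto_one_div_add_atTop_nhds_zero_nat (𝕜 := ℝ))
    have hn : (0 : ℝ) < (n : ℝ) + 1 := by positivity
    rw [Real.dist_eq, abs_le]
    have h1 := Int.floor_le (((n : ℝ) + 1) * p.1)
    have h2 := Int.lt_floor_add_one (((n : ℝ) + 1) * p.1)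
    constructor
    · rw [neg_le_sub_iff_le_add, ← add_div, le_div_iff₀ hn]
      linarith
    · have : (⌊((n : ℝ) + 1) * p.1⌋ : ℝ) / ((n : ℝ) + 1) ≤ p.1 := by
        rw [div_le_iff₀ hn]; linarith
      have h4 : 0 ≤ 1 / ((n : ℝ) + 1) := by positivity
      linarith
  exact (hp.tendsto p.1).comp h3

theorem GoodProc.integrable_prod {Z : ℝ → Ω → ℝ} (h : GoodProc Z P) (a b : ℝ) :
    Integrable (fun p : ℝ × Ω => Z p.1 p.2) ((volume.restrict (Ioc a b)).prod P) := by
  obtain ⟨M, hM0, hM⟩ := h.bdd' (max |a| |b|)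
  refine Integrable.of_bound (h.joint _) M ?_
  have h2 := Measure.quasiMeasurePreserving_snd (μ := volume.restrict (Ioc a b)) (ν := P) |>.ae hM
  have h3 : ∀ᵐ t ∂(volume.restrict (Ioc a b)), t ∈ Ioc a b := ae_restrict_mem measurableSet_Ioc
  have h4 := Measure.quasiMeasurePreserving_fst (μ := volume.restrict (Ioc a b)) (ν := P) |>.ae h3
  filter_upwards [h2, h4] with p hp hq
  rw [Real.norm_eq_abs]
  apply hp
  rw [abs_le]
  constructor
  · have := neg_abs_le a
    have := le_max_left |a| |b|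
    linarith [hq.1]
  · have := le_abs_self b
    have := le_max_right |a| |b|
    linarith [hq.2]

/-- Fubini -/
theorem GoodProc.fubini {Z : ℝ → Ω → ℝ} (h : GoodProc Z P) {a b : ℝ} (hab : a ≤ b) :
    ∫ ω, (∫ t in a..b, Z t ω) ∂P = ∫ t in a..b, (∫ ω, Z t ω ∂P) := by
  simp only [intervalIntegral.integral_of_le hab]
  rw [← integral_integral_swap (h.integrable_prod a b)]

theorem GoodProc.continuous_expect {Z : ℝ → Ω → ℝ} (h : GoodProc Z P) :
    Continuous (fun t => ∫ ω, Z t ω ∂P) := by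
  rw [continuous_iff_continuousAt]
  intro t
  obtain ⟨M, hM0, hM⟩ := h.bdd' (|t| + 1)
  refine continuousAt_of_dominated (bound := fun _ => M) ?_ ?_ (integrable_const _) ?_
  · exact Eventually.of_forall (fun s => h.meas s)
  · have : ∀ᶠ s in 𝓝 t, |s| ≤ |t| + 1 := by
      have h1 : Tendsto (fun s : ℝ => |s|) (𝓝 t) (𝓝 |t|) := (continuous_abs.tendsto t)
      exact (h1.eventually (gt_mem_nhds (show |t| < |t| + 1 by linarith))).mono
        (fun s hs => le_of_lt hs)
    filter_upwards [this] with s hs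
    filter_upwards [hM] with ω hω
    simpa using hω s hs
  · filter_upwards [h.cont] with ω hω using hω.continuousAt

/-- The primitive of a process. -/
noncomputable def prim (Z : ℝ → Ω → ℝ) : ℝ → Ω → ℝ := fun t ω => ∫ s in (0:ℝ)..t, Z s ω

theorem GoodProc.prim_meas {Z : ℝ → Ω → ℝ} (h : GoodProc Z P) (t : ℝ) :
    AEStronglyMeasurable (prim Z t) P := by
  unfold prim
  have key : ∀ a b : ℝ, AEStronglyMeasurable (fun ω => ∫ s in Ioc a b, Z s ω) P := by
    intro a b
    exact (h.joint (volume.restrict (Ioc a b))).prod_swap.integral_prod_right'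
  simp only [intervalIntegral]
  exact (key 0 t).sub (key t 0)

theorem GoodProc.prim {Z : ℝ → Ω → ℝ} (h : GoodProc Z P) : GoodProc (prim Z) P := by
  refine ⟨h.prim_meas, ?_, ?_⟩
  · filter_upwards [h.cont] with ω hω
    exact intervalIntegral.continuous_primitive (fun a b => hω.intervalIntegrable a b) 0
  · intro R
    obtain ⟨M, hM0, hM⟩ := h.bdd' R
    refine ⟨M * R, fun t ht => ?_⟩
    filter_upwards [hM] with ω hω
    have h1 : ∀ s ∈ uIoc (0:ℝ) t, ‖Z s ω‖ ≤ M := by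
      intro s hs
      rw [Real.norm_eq_abs]
      apply hω
      rw [uIoc, mem_Ioc] at hs
      rw [abs_le] at ht ⊢
      constructor
      · rcases le_total 0 t with h0 | h0
        · rw [min_eq_left h0] at hs; linarith [hs.1]
        · rw [min_eq_right h0] at hs; linarith [hs.1]
      · rcases le_total 0 t with h0 | h0
        · rw [max_eq_right h0] at hs; linarith [hs.2]
        · rw [max_eq_left h0] at hs; linarith [hs.2]
    have h2 := intervalIntegral.norm_integral_le_of_norm_le_const h1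
    rw [sub_zero, Real.norm_eq_abs] at h2
    exact h2.trans (mul_le_mul_of_nonneg_left ht hM0)

theorem GoodProc.pow {Z : ℝ → Ω → ℝ} (h : GoodProc Z P) (k : ℕ) :
    GoodProc (fun t ω => Z t ω ^ k) P := by
  induction k with
  | zero =>
    simp only [pow_zero]
    exact GoodProc.const aestronglyMeasurable_const 1 (by simp)
  | succ k ih =>
    simp only [pow_succ]
    exact ih.mul h

/-- `d/dt X^(k+1) = (k+1) X^k Z` integrated against a bounded variable. -/
theorem GoodProc.pow_id {Z : ℝ → Ω → ℝ} (h : GoodProc Z P) {Y : Ω → ℝ}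
    (hY : AEStronglyMeasurable Y P) {M : ℝ} (hM : ∀ᵐ ω ∂P, |Y ω| ≤ M) (k : ℕ) {T : ℝ}
    (hT : 0 ≤ T) :
    ∫ ω, Y ω * MP_1d7982_pr.prim Z T ω ^ (k + 1) ∂P =
      (k + 1) * ∫ t in (0:ℝ)..T, (∫ ω, Y ω * (MP_1d7982_pr.prim Z t ω ^ k * Z t ω) ∂P) := by
  have h1 : GoodProc (fun t ω => Y ω * (MP_1d7982_pr.prim Z t ω ^ k * Z t ω)) P :=
    (GoodProc.const hY M hM).mul ((h.prim.pow k).mul h)
  rw [← h1.fubini hT, ← integral_const_mul]
  apply integral_congr_ae
  filter_upwards [h.cont] with ω hω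
  rw [intervalIntegral.integral_const_mul]
  have h2 : ∀ t, HasDerivAt (fun t => MP_1d7982_pr.prim Z t ω) (Z t ω) t := fun t =>
    intervalIntegral.integral_hasDerivAt_right (hω.intervalIntegrable 0 t)
      (hω.stronglyMeasurableAtFilter _ _) hω.continuousAt
  have h3 : ∀ t ∈ uIcc (0:ℝ) T, HasDerivAt (fun t => MP_1d7982_pr.prim Z t ω ^ (k + 1))
      (((k + 1 : ℕ) : ℝ) * MP_1d7982_pr.prim Z t ω ^ k * Z t ω) t := by
    intro t _
    have := (h2 t).pow (k + 1)
    rw [Nat.add_sub_cancel] at this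
    exact this
  have hc : Continuous (fun t => MP_1d7982_pr.prim Z t ω) :=
    continuous_iff_continuousAt.mpr (fun t => (h2 t).continuousAt)
  have h4 := intervalIntegral.integral_eq_sub_of_hasDerivAt h3
    (((continuous_const.mul (hc.pow k)).mul hω).intervalIntegrable 0 T)
  have h5 : MP_1d7982_pr.prim Z 0 ω = 0 := by simp [MP_1d7982_pr.prim]
  rw [h5] at h4
  have h6 : ∀ t, ((k + 1 : ℕ) : ℝ) * MP_1d7982_pr.prim Z t ω ^ k * Z t ω =
      ((k + 1 : ℕ) : ℝ) * (MP_1d7982_pr.prim Z t ω ^ k * Z t ω) := fun t => by ring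
  simp only [h6] at h4
  rw [intervalIntegral.integral_const_mul] at h4
  have h7 : MP_1d7982_pr.prim Z T ω ^ (k + 1) =
      ((k + 1 : ℕ) : ℝ) * ∫ t in (0:ℝ)..T, MP_1d7982_pr.prim Z t ω ^ k * Z t ω := by
    rw [h4]; simp
  rw [h7]
  push_cast
  ring

end Pool.Agent.Lib.MP_1d7982_pr
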