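import Pool.Agent.Lib.MP_1d7982_pr.Bumps

open MeasureTheory ProbabilityTheory Filter Topology Set
open scoped NNReal ENNReal

namespace Pool.Agent.Lib.MP_1d7982_pr

/-! ### Separated families of tents -/

section family

variable {ι : Type*} [Fintype ι] [DecidableEq ι] {r : ℝ} (hr : 0 < r) {C : ι → T3}
  (hC : ∀ i j, i ≠ j → 2 * r ≤ ‖C i - C j‖)

include hr hC

theorem unique_tent {x : T3} {i j : ι} (hi : tent r (x - C i) ≠ 0) (hj : tent r (x - C j) ≠ 0) :
    i = j := by
  by_contra hne
  have h1 : ‖x - C i‖ < r := by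
    by_contra h
    exact hi (tent_eq_zero hr (not_lt.mp h))
  have h2 : ‖x - C j‖ < r := by
    by_contra h
    exact hj (tent_eq_zero hr (not_lt.mp h))
  have h3 := hC i j hne
  have h4 : C i - C j = (x - C j) - (x - C i) := by abel
  have h5 := norm_sub_le (x - C j) (x - C i)
  rw [← h4] at h5
  linarith

theorem card_tent (x : T3) :
    ((Finset.univ.filter (fun i => tent r (x - C i) ≠ 0)).card : ℝ) ≤ 1 := by
  have : (Finset.univ.filter (fun i => tent r (x - C i) ≠ 0)).card ≤ 1 := by
    rw [Finset.card_le_one]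
    intro i hi j hj
    simp only [Finset.mem_filter, Finset.mem_univ, true_and] at hi hj
    exact unique_tent hr hC hi hj
  exact_mod_cast this

theorem family_bound {σ : ι → ℝ} (hσ : ∀ i, |σ i| ≤ 1) (x : T3) :
    |∑ i, σ i * tent r (x - C i)| ≤ 1 := by
  refine (Finset.abs_sum_le_sum_abs _ _).trans ?_
  have h1 : ∀ i ∈ (Finset.univ : Finset ι), |σ i * tent r (x - C i)| ≤
      if tent r (x - C i) ≠ 0 then 1 else 0 := by
    intro i _
    split_ifs with h
    · rw [abs_mul, abs_of_nonneg (tent_nonneg r _)]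
      exact mul_le_one₀ (hσ i) (tent_nonneg r _) (tent_le_one hr _)
    · push Not at h
      rw [h]; simp
  refine (Finset.sum_le_sum h1).trans ?_
  rw [Finset.sum_boole]
  exact card_tent hr hC x

theorem family_lip {σ : ι → ℝ} (hσ : ∀ i, |σ i| ≤ 1) (x y : T3) :
    |(∑ i, σ i * tent r (x - C i)) - ∑ i, σ i * tent r (y - C i)| ≤ 2 * (‖x - y‖ / r) := by
  rw [← Finset.sum_sub_distrib]
  refine (Finset.abs_sum_le_sum_abs _ _).trans ?_
  have h1 : ∀ i ∈ (Finset.univ : Finset ι),
      |σ i * tent r (x - C i) - σ i * tent r (y - C i)| ≤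
      (if tent r (x - C i) ≠ 0 then 1 else 0) * (‖x - y‖ / r) +
        (if tent r (y - C i) ≠ 0 then 1 else 0) * (‖x - y‖ / r) := by
    intro i _
    rw [← mul_sub, abs_mul]
    have h2 := tent_lip hr (x - C i) (y - C i)
    rw [show (x - C i) - (y - C i) = x - y by abel] at h2
    have h3 : |σ i| * |tent r (x - C i) - tent r (y - C i)| ≤ ‖x - y‖ / r := by
      calc |σ i| * |tent r (x - C i) - tent r (y - C i)|
          ≤ 1 * |tent r (x - C i) - tent r (y - C i)| :=
            mul_le_mul_of_nonneg_right (hσ i) (abs_nonneg _)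
        _ ≤ ‖x - y‖ / r := by rw [one_mul]; exact h2
    have h4 : 0 ≤ ‖x - y‖ / r := by positivity
    by_cases hx : tent r (x - C i) = 0
    · by_cases hy : tent r (y - C i) = 0
      · rw [hx, hy]; simp
      · rw [if_neg (not_not.mpr hx), if_pos hy]; linarith
    · by_cases hy : tent r (y - C i) = 0
      · rw [if_pos hx, if_neg (not_not.mpr hy)]; linarith
      · rw [if_pos hx, if_pos hy]; linarith
  refine (Finset.sum_le_sum h1).trans ?_
  rw [Finset.sum_add_distrib, ← Finset.sum_mul, ← Finset.sum_mul, Finset.sum_boole,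
    Finset.sum_boole]
  have h5 := card_tent hr hC x
  have h6 := card_tent hr hC y
  have h4 : 0 ≤ ‖x - y‖ / r := by positivity
  nlinarith

end family

/-! ### The grid -/

/-- centre of the cell `j` at scale `n` -/
noncomputable def cen (n : ℕ) (j : Fin 3 → Fin n) : T3 := fun i => (((j i : ℕ) / (n : ℝ) : ℝ) : UnitAddCircle)

/-- all tent centres at scale `n` -/
noncomputable def cenB (n : ℕ) (p : (Fin 3 → Fin n) × Bool) : T3 :=
  if p.2 then cen n p.1 + vec (2 * (1 / (4 * n))) else cen n p.1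

theorem norm_frac {N : ℕ} (hN : 0 < N) {m : ℤ} (hm : ¬ (N : ℤ) ∣ m) :
    1 / (N : ℝ) ≤ ‖((m / (N : ℝ) : ℝ) : UnitAddCircle)‖ := by
  rw [UnitAddCircle.norm_eq]
  set z := round ((m : ℝ) / (N : ℝ)) with hz
  have hN' : (0 : ℝ) < N := by exact_mod_cast hN
  have h1 : (m : ℝ) / N - z = ((m - z * N : ℤ) : ℝ) / N := by
    push_cast
    field_simp
  rw [h1, abs_div, abs_of_pos hN']
  apply div_le_div_of_nonneg_right _ hN'.le
  have h2 : m - z * N ≠ 0 := by
    intro h
    exact hm ⟨z, by linarith⟩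
  have h3 : 1 ≤ |m - z * N| := Int.one_le_abs h2
  exact_mod_cast h3

/-- integer coordinates of the centres (in units of `1/(2n)`) -/
def coord {n : ℕ} (p : (Fin 3 → Fin n) × Bool) (i : Fin 3) : ℤ :=
  2 * (p.1 i : ℕ) + (if i = 0 ∧ p.2 = true then 1 else 0)

theorem cenB_apply {n : ℕ} (hn : 0 < n) (p : (Fin 3 → Fin n) × Bool) (i : Fin 3) :
    cenB n p i = (((coord p i : ℤ) / ((2 * n : ℕ) : ℝ) : ℝ) : UnitAddCircle) := by
  have hn' : (n : ℝ) ≠ 0 := by exact_mod_cast hn.ne'
  unfold cenB coord cen vec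
  rcases p with ⟨j, b⟩
  cases b
  · simp only [Bool.false_eq_true, if_false, and_false]
    congr 1
    push_cast
    field_simp
    ring
  · simp only [if_true, Pi.add_apply]
    by_cases hi : i = 0
    · simp only [hi, if_true, true_and]
      rw [← AddCircle.coe_add]
      congr 1
      push_cast
      field_simp
      ring
    · simp only [hi, if_false, false_and, add_zero]
      congr 1
      push_cast
      field_simp

theorem cenB_sep {n : ℕ} (hn : 0 < n) (p q : (Fin 3 → Fin n) × Bool) (hpq : p ≠ q) :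
    2 * (1 / (4 * (n : ℝ))) ≤ ‖cenB n p - cenB n q‖ := by
  have hn' : (0 : ℝ) < n := by exact_mod_cast hn
  -- a differing coordinate
  obtain ⟨i, hi⟩ : ∃ i, coord p i ≠ coord q i := by
    by_contra hcon
    push Not at hcon
    apply hpq
    have h2 : p.2 = q.2 := by
      have h0 := hcon 0
      unfold coord at h0
      rcases hp : p.2 with _ | _ <;> rcases hq : q.2 with _ | _ <;> simp [hp, hq] at h0 ⊢ <;> omega
    have h1 : p.1 = q.1 := by
      funext i
      have h0 := hcon i
      unfold coord at h0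
      rw [h2] at h0
      apply Fin.ext
      have : 2 * ((p.1 i : ℕ) : ℤ) = 2 * ((q.1 i : ℕ) : ℤ) := by linarith
      omega
    exact Prod.ext h1 h2
  have hb : ∀ p : (Fin 3 → Fin n) × Bool, 0 ≤ coord p i ∧ coord p i < 2 * n := by
    intro p
    unfold coord
    have := (p.1 i).isLt
    split_ifs <;> constructor <;> omega
  have hd : ¬ (((2 * n : ℕ) : ℤ)) ∣ (coord p i - coord q i) := by
    intro hdvd
    have h1 := hb p
    have h2 := hb q
    have h3 : coord p i - coord q i ≠ 0 := sub_ne_zero.mpr hi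
    have h4 := Int.le_of_dvd (abs_pos.mpr h3) ((dvd_abs _ _).mpr hdvd)
    have h5 : |coord p i - coord q i| < 2 * n := by
      rw [abs_lt]; constructor <;> omega
    push_cast at h4
    omega
  have h1 := norm_frac (N := 2 * n) (by omega) hd
  have h2 := norm_le_pi_norm (cenB n p - cenB n q) i
  rw [Pi.sub_apply, cenB_apply hn, cenB_apply hn, ← AddCircle.coe_sub, ← sub_div] at h2
  have h3 : 2 * (1 / (4 * (n : ℝ))) = 1 / ((2 * n : ℕ) : ℝ) := by
    push_cast
    field_simp
    norm_num
  rw [h3]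
  refine h1.trans (le_trans (le_of_eq ?_) h2)
  congr 3
  push_cast
  ring

/-- the scale-`n` test function with coefficients `s` -/
noncomputable def scaleFun (n : ℕ) (s : (Fin 3 → Fin n) → ℝ) : C(T3, ℝ) :=
  ∑ j, s j • bump (1 / (4 * n)) (cen n j)

theorem scaleFun_eq {n : ℕ} (s : (Fin 3 → Fin n) → ℝ) (x : T3) :
    scaleFun n s x = ∑ p : (Fin 3 → Fin n) × Bool, (if p.2 then - s p.1 else s p.1) *
      tent (1 / (4 * n)) (x - cenB n p) := by
  rw [Fintype.sum_prod_type]
  unfold scaleFun
  rw [ContinuousMap.coe_sum, Finset.sum_apply]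
  apply Finset.sum_congr rfl
  intro j _
  rw [Fintype.sum_bool]
  simp only [cenB, if_true, Bool.false_eq_true, if_false, ContinuousMap.smul_apply, smul_eq_mul,
    bump_apply]
  rw [show x - cen n j - vec (2 * (1 / (4 * (n:ℝ)))) = x - (cen n j + vec (2 * (1 / (4 * (n:ℝ)))))
    by abel]
  ring

theorem scaleFun_bound {n : ℕ} (hn : 0 < n) {s : (Fin 3 → Fin n) → ℝ} (hs : ∀ j, |s j| ≤ 1)
    (x : T3) : |scaleFun n s x| ≤ 1 := by
  have hn' : (0 : ℝ) < n := by exact_mod_cast hn
  rw [scaleFun_eq]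
  refine family_bound (by positivity) (fun p q hpq => cenB_sep hn p q hpq) ?_ x
  intro p
  split_ifs
  · rw [abs_neg]; exact hs _
  · exact hs _

theorem scaleFun_lip {n : ℕ} (hn : 0 < n) {s : (Fin 3 → Fin n) → ℝ} (hs : ∀ j, |s j| ≤ 1)
    (x y : T3) : |scaleFun n s x - scaleFun n s y| ≤ 8 * n * ‖x - y‖ := by
  have hn' : (0 : ℝ) < n := by exact_mod_cast hn
  rw [scaleFun_eq, scaleFun_eq]
  refine (family_lip (by positivity) (fun p q hpq => cenB_sep hn p q hpq) ?_ x y).trans
    (le_of_eq ?_)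
  · intro p
    split_ifs
    · rw [abs_neg]; exact hs _
    · exact hs _
  · field_simp
    ring

theorem scaleFun_integral (n : ℕ) (s : (Fin 3 → Fin n) → ℝ) : ∫ x, scaleFun n s x = 0 := by
  unfold scaleFun
  simp only [ContinuousMap.coe_sum, Finset.sum_apply, ContinuousMap.smul_apply, smul_eq_mul]
  rw [integral_finsetSum _ (fun j _ => (integrable_C volume _).const_mul _)]
  simp only [integral_const_mul, bump_integral, mul_zero, Finset.sum_const_zero]

/-- geometric sum estimate -/
theorem geo (t : ℝ) (ht : 0 < t) (K : ℕ) :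
    ∑ k ∈ Finset.range K, min (2 / (2 ^ k * t)) (8 * (2 ^ k * t)) ≤ 20 := by
  have claim : ∀ K : ℕ, ((2:ℝ) ^ K * t ≤ 2 →
      ∑ k ∈ Finset.range K, min (2 / (2 ^ k * t)) (8 * (2 ^ k * t)) ≤ 8 * (2 ^ K * t)) ∧
      (2 < (2:ℝ) ^ K * t →
      ∑ k ∈ Finset.range K, min (2 / (2 ^ k * t)) (8 * (2 ^ k * t)) ≤ 20 - 4 / (2 ^ K * t)) := by
    intro K
    induction K with
    | zero =>
      constructor
      · intro _
        simp only [Finset.range_zero, Finset.sum_empty]
        positivity
      · intro h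
        simp only [pow_zero, one_mul] at h ⊢
        simp only [Finset.range_zero, Finset.sum_empty]
        have : 4 / t ≤ 2 := by rw [div_le_iff₀ ht]; linarith
        linarith
    | succ K ih =>
      set b := (2:ℝ) ^ K * t with hb
      have hb0 : 0 < b := by positivity
      have hb2 : (2:ℝ) ^ (K + 1) * t = 2 * b := by rw [hb]; ring
      rw [Finset.sum_range_succ, hb2, ← hb]
      constructor
      · intro h
        have h1 := ih.1 (by linarith)
        have h2 := min_le_right (2 / b) (8 * b)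
        linarith
      · intro h
        have h2 := min_le_left (2 / b) (8 * b)
        have h3 : 4 / (2 * b) = 2 / b := by field_simp; norm_num
        rw [h3]
        by_cases hb3 : b ≤ 2
        · have h1 := ih.1 hb3
          have h4 : 1 < b := by linarith
          have h5 : 4 / b ≤ 20 - 8 * b := by
            rw [div_le_iff₀ hb0]
            nlinarith
          have h6 : 4 / b = 2 / b + 2 / b := by ring
          linarith
        · have h1 := ih.2 (not_le.mp hb3)
          have h6 : 4 / b = 2 / b + 2 / b := by ring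
          linarith
  rcases le_or_gt ((2:ℝ) ^ K * t) 2 with h | h
  · have := (claim K).1 h
    linarith
  · have := (claim K).2 h
    have h2 : 0 < 4 / ((2:ℝ) ^ K * t) := by positivity
    linarith

/-- the multiscale test function -/
noncomputable def testFun (K : ℕ) (s : ∀ k : ℕ, (Fin 3 → Fin (4 ^ k)) → ℝ) : C(T3, ℝ) :=
  ∑ k ∈ Finset.range K, ((1 / 2 : ℝ) ^ k) • scaleFun (4 ^ k) (s k)

theorem testFun_holder (K : ℕ) {s : ∀ k : ℕ, (Fin 3 → Fin (4 ^ k)) → ℝ}
    (hs : ∀ k j, |s k j| ≤ 1) (x y : T3) :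
    |testFun K s x - testFun K s y| ≤ 20 * Real.sqrt ‖x - y‖ := by
  by_cases hxy : x = y
  · subst hxy; simp
  have hd : 0 < ‖x - y‖ := norm_pos_iff.mpr (sub_ne_zero.mpr hxy)
  set t := Real.sqrt ‖x - y‖ with ht
  have ht0 : 0 < t := Real.sqrt_pos.mpr hd
  have ht2 : ‖x - y‖ = t * t := (Real.mul_self_sqrt hd.le).symm
  have h1 : testFun K s x - testFun K s y = ∑ k ∈ Finset.range K,
      ((1 / 2 : ℝ) ^ k) * (scaleFun (4 ^ k) (s k) x - scaleFun (4 ^ k) (s k) y) := by
    unfold testFun
    simp only [ContinuousMap.coe_sum, Finset.sum_apply, ContinuousMap.smul_apply, smul_eq_mul]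
    rw [← Finset.sum_sub_distrib]
    apply Finset.sum_congr rfl
    intro k _
    ring
  rw [h1]
  refine (Finset.abs_sum_le_sum_abs _ _).trans ?_
  have h2 : ∀ k ∈ Finset.range K,
      |((1 / 2 : ℝ) ^ k) * (scaleFun (4 ^ k) (s k) x - scaleFun (4 ^ k) (s k) y)| ≤
      t * min (2 / (2 ^ k * t)) (8 * (2 ^ k * t)) := by
    intro k _
    rw [abs_mul, abs_of_pos (by positivity)]
    have h3 := scaleFun_bound (n := 4 ^ k) (by positivity) (hs k) x
    have h4 := scaleFun_bound (n := 4 ^ k) (by positivity) (hs k) y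
    have h5 := scaleFun_lip (n := 4 ^ k) (by positivity) (hs k) x y
    have h6 : |scaleFun (4 ^ k) (s k) x - scaleFun (4 ^ k) (s k) y| ≤ 2 := by
      rw [abs_le] at h3 h4 ⊢
      constructor <;> linarith
    rw [mul_min_of_nonneg _ _ ht0.le]
    apply le_min
    · calc ((1 / 2 : ℝ) ^ k) * |scaleFun (4 ^ k) (s k) x - scaleFun (4 ^ k) (s k) y|
          ≤ ((1 / 2 : ℝ) ^ k) * 2 := mul_le_mul_of_nonneg_left h6 (by positivity)
        _ = t * (2 / (2 ^ k * t)) := by
          rw [one_div, inv_pow]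
          field_simp
    · calc ((1 / 2 : ℝ) ^ k) * |scaleFun (4 ^ k) (s k) x - scaleFun (4 ^ k) (s k) y|
          ≤ ((1 / 2 : ℝ) ^ k) * (8 * ((4 ^ k : ℕ) : ℝ) * ‖x - y‖) :=
            mul_le_mul_of_nonneg_left h5 (by positivity)
        _ = t * (8 * (2 ^ k * t)) := by
          rw [ht2]
          push_cast
          have : (4 : ℝ) ^ k = 2 ^ k * 2 ^ k := by rw [← mul_pow]; norm_num
          rw [this, one_div, inv_pow]
          field_simp
  refine (Finset.sum_le_sum h2).trans ?_
  rw [← Finset.mul_sum]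
  have := geo t ht0 K
  nlinarith

theorem testFun_integral (K : ℕ) (s : ∀ k : ℕ, (Fin 3 → Fin (4 ^ k)) → ℝ) :
    ∫ x, testFun K s x = 0 := by
  unfold testFun
  simp only [ContinuousMap.coe_sum, Finset.sum_apply, ContinuousMap.smul_apply, smul_eq_mul]
  rw [integral_finsetSum _ (fun j _ => (integrable_C volume _).const_mul _)]
  simp only [integral_const_mul, scaleFun_integral, mul_zero, Finset.sum_const_zero]

end Pool.Agent.Lib.MP_1d7982_pr
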