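import Pool.Agent.Lib.MP_1d7982_pr.Fub

open MeasureTheory Filter Topology Set

namespace Pool.Agent.Lib.MP_1d7982_pr

variable {Ω : Type*} [MeasurableSpace Ω] {P : Measure Ω} [IsProbabilityMeasure P]

theorem exp_int (ε t r : ℝ) (hε : 0 < ε) (hr : 0 ≤ r) :
    ∫ q in (0:ℝ)..r, Real.exp (-ε * (t - q)) ≤ Real.exp (-ε * (t - r)) / ε := by
  have h1 : ∀ q ∈ uIcc (0:ℝ) r, HasDerivAt (fun q => Real.exp (-ε * (t - q)) / ε)
      (Real.exp (-ε * (t - q))) q := by
    intro q _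
    have h2 : HasDerivAt (fun q : ℝ => -ε * (t - q)) ε q := by
      have := ((hasDerivAt_id q).const_sub t).const_mul (-ε)
      simpa using this
    have h3 := h2.exp.div_const ε
    rw [mul_div_assoc, div_self hε.ne', mul_one] at h3
    exact h3
  rw [intervalIntegral.integral_eq_sub_of_hasDerivAt h1
    ((by fun_prop : Continuous (fun q : ℝ => Real.exp (-ε * (t - q)))).intervalIntegrable 0 r)]
  have : 0 ≤ Real.exp (-ε * (t - 0)) / ε := by positivity
  linarith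

theorem int_lin1 {f g : ℝ → ℝ} (hf : Continuous f) (hg : Continuous g) (a b c d : ℝ) :
    ∫ x in a..b, (f x * c + d * g x) = (∫ x in a..b, f x) * c + d * ∫ x in a..b, g x := by
  have h1 : IntervalIntegrable (fun x => f x * c) volume a b :=
    (hf.mul continuous_const).intervalIntegrable _ _
  have h2 : IntervalIntegrable (fun x => d * g x) volume a b :=
    (continuous_const.mul hg).intervalIntegrable _ _
  rw [intervalIntegral.integral_add h1 h2, intervalIntegral.integral_mul_const,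
    intervalIntegral.integral_const_mul]

theorem int_lin2 {f g : ℝ → ℝ} (hf : Continuous f) (hg : Continuous g) (a b c d : ℝ) :
    ∫ x in a..b, (c * f x + d * g x) = c * (∫ x in a..b, f x) + d * ∫ x in a..b, g x := by
  have h1 : IntervalIntegrable (fun x => c * f x) volume a b :=
    (continuous_const.mul hf).intervalIntegrable _ _
  have h2 : IntervalIntegrable (fun x => d * g x) volume a b :=
    (continuous_const.mul hg).intervalIntegrable _ _
  rw [intervalIntegral.integral_add h1 h2, intervalIntegral.integral_const_mul,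
    intervalIntegral.integral_const_mul]

theorem int_lin3 {f : ℝ → ℝ} (hf : Continuous f) (a b c d : ℝ) :
    ∫ x in a..b, (c * f x + d) = c * (∫ x in a..b, f x) + d * (b - a) := by
  have h1 : IntervalIntegrable (fun x => c * f x) volume a b :=
    (continuous_const.mul hf).intervalIntegrable _ _
  have h2 : IntervalIntegrable (fun _ : ℝ => d) volume a b :=
    continuous_const.intervalIntegrable _ _
  rw [intervalIntegral.integral_add h1 h2, intervalIntegral.integral_const_mul,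
    intervalIntegral.integral_const, smul_eq_mul, mul_comm (b - a)]

section

variable {Z : ℝ → Ω → ℝ} (hZ : GoodProc Z P) (h1 : ∀ t, ∀ᵐ ω ∂P, |Z t ω| ≤ 1)

include hZ h1

omit [IsProbabilityMeasure P] in
theorem bdd_two (s t : ℝ) : ∀ᵐ ω ∂P, |Z s ω * Z t ω| ≤ 1 := by
  filter_upwards [h1 s, h1 t] with ω a b
  rw [abs_mul]
  exact mul_le_one₀ a (abs_nonneg _) b

omit [IsProbabilityMeasure P] in
theorem bdd_three (r s t : ℝ) : ∀ᵐ ω ∂P, |Z r ω * Z s ω * Z t ω| ≤ 1 := by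
  filter_upwards [bdd_two hZ h1 r s, h1 t] with ω a b
  rw [abs_mul]
  exact mul_le_one₀ a (abs_nonneg _) b

theorem cont_c2 (t : ℝ) : Continuous (fun q => ∫ ω, Z q ω * Z t ω ∂P) := by
  have : GoodProc (fun q ω => Z q ω * Z t ω) P := hZ.mul (GoodProc.const (hZ.meas t) 1 (h1 t))
  exact this.continuous_expect

theorem v_eq (t : ℝ) (ht : 0 ≤ t) :
    ∫ ω, prim Z t ω * Z t ω ∂P = ∫ q in (0:ℝ)..t, (∫ ω, Z q ω * Z t ω ∂P) := by
  have := hZ.pow_id (hZ.meas t) (h1 t) 0 ht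
  simp only [zero_add, pow_one, Nat.cast_zero, pow_zero, one_mul] at this
  simp only [mul_comm (prim Z t _), mul_comm (Z _ _) (Z t _)]
  exact this

omit h1 in
theorem V_eq (T : ℝ) (hT : 0 ≤ T) :
    ∫ ω, prim Z T ω ^ 2 ∂P = 2 * ∫ t in (0:ℝ)..T, (∫ ω, prim Z t ω * Z t ω ∂P) := by
  have := hZ.pow_id (Y := fun _ => 1) aestronglyMeasurable_const (M := 1) (by simp) 1 hT
  simp only [one_mul, pow_one, Nat.cast_one] at this
  norm_num at this
  exact this

theorem fourth {A ε : ℝ} (hA : 0 ≤ A) (hε : 0 < ε)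
    (hpos : ∀ s t, 0 ≤ s → s ≤ t → 0 ≤ ∫ ω, Z s ω * Z t ω ∂P)
    (h4 : ∀ q r s t, 0 ≤ q → q ≤ r → r ≤ s → s ≤ t →
      ∫ ω, Z q ω * Z r ω * Z s ω * Z t ω ∂P ≤
        (∫ ω, Z q ω * Z r ω ∂P) * (∫ ω, Z s ω * Z t ω ∂P) + A * Real.exp (-ε * (t - q)))
    (T : ℝ) (hT : 0 ≤ T) :
    ∫ ω, prim Z T ω ^ 4 ∂P ≤ 6 * (∫ ω, prim Z T ω ^ 2 ∂P) ^ 2 + 24 * A * T / ε ^ 3 := by
  -- continuity facts
  have hvproc : GoodProc (fun t ω => prim Z t ω * Z t ω) P := hZ.prim.mul hZ
  have hvc : Continuous (fun t => ∫ ω, prim Z t ω * Z t ω ∂P) := hvproc.continuous_expect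
  have hVc : Continuous (fun t => ∫ ω, prim Z t ω ^ 2 ∂P) := (hZ.prim.pow 2).continuous_expect
  have hexp : ∀ t : ℝ, Continuous (fun q : ℝ => Real.exp (-ε * (t - q))) := fun t => by fun_prop
  have hv0 : ∀ t, 0 ≤ t → 0 ≤ ∫ ω, prim Z t ω * Z t ω ∂P := by
    intro t ht
    rw [v_eq hZ h1 t ht]
    apply intervalIntegral.integral_nonneg ht
    intro q hq
    exact hpos q t hq.1 hq.2
  have hVmono : ∀ s t, 0 ≤ s → s ≤ t → ∫ ω, prim Z s ω ^ 2 ∂P ≤ ∫ ω, prim Z t ω ^ 2 ∂P := by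
    intro s t hs hst
    rw [V_eq hZ s hs, V_eq hZ t (hs.trans hst)]
    have h2 := intervalIntegral.integral_add_adjacent_intervals
      (hvc.intervalIntegrable (μ := volume) 0 s) (hvc.intervalIntegrable s t)
    have h3 : 0 ≤ ∫ u in s..t, (∫ ω, prim Z u ω * Z u ω ∂P) :=
      intervalIntegral.integral_nonneg hst (fun u hu => hv0 u (hs.trans hu.1))
    linarith
  -- step 1
  have step1 : ∀ r s t, 0 ≤ r → r ≤ s → s ≤ t →
      ∫ ω, (Z r ω * Z s ω * Z t ω) * prim Z r ω ∂P ≤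
        (∫ ω, Z s ω * Z t ω ∂P) * (∫ ω, prim Z r ω * Z r ω ∂P) +
          A / ε * Real.exp (-ε * (t - r)) := by
    intro r s t hr hrs hst
    have e1 := hZ.pow_id (Y := fun ω => Z r ω * Z s ω * Z t ω)
      (((hZ.meas r).mul (hZ.meas s)).mul (hZ.meas t)) (bdd_three hZ h1 r s t) 0 hr
    simp only [zero_add, pow_one, Nat.cast_zero, pow_zero, one_mul] at e1
    rw [e1]
    have hproc : GoodProc (fun q ω => Z r ω * Z s ω * Z t ω * Z q ω) P :=
      (GoodProc.const (((hZ.meas r).mul (hZ.meas s)).mul (hZ.meas t)) 1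
        (bdd_three hZ h1 r s t)).mul hZ
    have e2 : ∫ q in (0:ℝ)..r, (∫ ω, Z r ω * Z s ω * Z t ω * Z q ω ∂P) ≤
        ∫ q in (0:ℝ)..r, ((∫ ω, Z q ω * Z r ω ∂P) * (∫ ω, Z s ω * Z t ω ∂P) +
          A * Real.exp (-ε * (t - q))) := by
      apply intervalIntegral.integral_mono_on hr
      · exact hproc.continuous_expect.intervalIntegrable _ _
      · exact (((cont_c2 hZ h1 r).mul continuous_const).add
          (continuous_const.mul (hexp t))).intervalIntegrable _ _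
      · intro q hq
        have := h4 q r s t hq.1 hq.2 hrs hst
        have e3 : ∀ ω, Z r ω * Z s ω * Z t ω * Z q ω = Z q ω * Z r ω * Z s ω * Z t ω :=
          fun ω => by ring
        simp only [e3]
        exact this
    refine e2.trans ?_
    rw [int_lin1 (cont_c2 hZ h1 r) (hexp t), ← v_eq hZ h1 r hr]
    have e4 := exp_int ε t r hε hr
    have e5 : A * ∫ q in (0:ℝ)..r, Real.exp (-ε * (t - q)) ≤
        A * (Real.exp (-ε * (t - r)) / ε) := mul_le_mul_of_nonneg_left e4 hA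
    have e6 : A * (Real.exp (-ε * (t - r)) / ε) = A / ε * Real.exp (-ε * (t - r)) := by ring
    rw [e6] at e5
    linarith
  -- step 2
  have step2 : ∀ s t, 0 ≤ s → s ≤ t →
      ∫ ω, (Z s ω * Z t ω) * prim Z s ω ^ 2 ∂P ≤
        (∫ ω, Z s ω * Z t ω ∂P) * (∫ ω, prim Z s ω ^ 2 ∂P) +
          2 * A / ε ^ 2 * Real.exp (-ε * (t - s)) := by
    intro s t hs hst
    have e1 := hZ.pow_id (Y := fun ω => Z s ω * Z t ω)
      ((hZ.meas s).mul (hZ.meas t)) (bdd_two hZ h1 s t) 1 hs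
    simp only [Nat.cast_one, pow_one] at e1
    norm_num at e1
    rw [e1]
    have hproc : GoodProc (fun r ω => Z s ω * Z t ω * (prim Z r ω * Z r ω)) P :=
      (GoodProc.const ((hZ.meas s).mul (hZ.meas t)) 1 (bdd_two hZ h1 s t)).mul hvproc
    have e2 : ∫ r in (0:ℝ)..s, (∫ ω, Z s ω * Z t ω * (prim Z r ω * Z r ω) ∂P) ≤
        ∫ r in (0:ℝ)..s, ((∫ ω, Z s ω * Z t ω ∂P) * (∫ ω, prim Z r ω * Z r ω ∂P) +
          A / ε * Real.exp (-ε * (t - r))) := by
      apply intervalIntegral.integral_mono_on hs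
      · exact hproc.continuous_expect.intervalIntegrable _ _
      · exact ((continuous_const.mul hvc).add
          (continuous_const.mul (hexp t))).intervalIntegrable _ _
      · intro r hr
        have := step1 r s t hr.1 hr.2 hst
        have e3 : ∀ ω, Z s ω * Z t ω * (prim Z r ω * Z r ω) =
          Z r ω * Z s ω * Z t ω * prim Z r ω := fun ω => by ring
        simp only [e3]
        exact this
    rw [int_lin2 hvc (hexp t)] at e2
    have e4 := exp_int ε t s hε hs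
    have e5 : A / ε * ∫ q in (0:ℝ)..s, Real.exp (-ε * (t - q)) ≤
        A / ε * (Real.exp (-ε * (t - s)) / ε) :=
      mul_le_mul_of_nonneg_left e4 (by positivity)
    have e6 : 2 * (A / ε * (Real.exp (-ε * (t - s)) / ε)) =
        2 * A / ε ^ 2 * Real.exp (-ε * (t - s)) := by
      field_simp
    rw [V_eq hZ s hs, ← e6]
    have e7 : (∫ ω, Z s ω * Z t ω ∂P) * (2 * ∫ u in (0:ℝ)..s, ∫ ω, prim Z u ω * Z u ω ∂P) =
      2 * ((∫ ω, Z s ω * Z t ω ∂P) * ∫ u in (0:ℝ)..s, ∫ ω, prim Z u ω * Z u ω ∂P) := by ring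
    rw [e7]
    linarith
  -- step 3
  set V := ∫ ω, prim Z T ω ^ 2 ∂P with hV
  have step3 : ∀ t, 0 ≤ t → t ≤ T →
      ∫ ω, Z t ω * prim Z t ω ^ 3 ∂P ≤
        3 * V * (∫ ω, prim Z t ω * Z t ω ∂P) + 6 * A / ε ^ 3 := by
    intro t ht htT
    have e1 := hZ.pow_id (Y := fun ω => Z t ω) (hZ.meas t) (h1 t) 2 ht
    norm_num at e1
    rw [e1]
    have hproc : GoodProc (fun s ω => Z t ω * (prim Z s ω ^ 2 * Z s ω)) P :=
      (GoodProc.const (hZ.meas t) 1 (h1 t)).mul ((hZ.prim.pow 2).mul hZ)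
    have e2 : ∫ s in (0:ℝ)..t, (∫ ω, Z t ω * (prim Z s ω ^ 2 * Z s ω) ∂P) ≤
        ∫ s in (0:ℝ)..t, ((∫ ω, Z s ω * Z t ω ∂P) * V +
          2 * A / ε ^ 2 * Real.exp (-ε * (t - s))) := by
      apply intervalIntegral.integral_mono_on ht
      · exact hproc.continuous_expect.intervalIntegrable _ _
      · exact (((cont_c2 hZ h1 t).mul continuous_const).add
          (continuous_const.mul (hexp t))).intervalIntegrable _ _
      · intro s hs
        have := step2 s t hs.1 hs.2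
        have e3 : ∀ ω, Z t ω * (prim Z s ω ^ 2 * Z s ω) =
          Z s ω * Z t ω * prim Z s ω ^ 2 := fun ω => by ring
        simp only [e3]
        have e4 := mul_le_mul_of_nonneg_left (hVmono s T hs.1 (hs.2.trans htT))
          (hpos s t hs.1 hs.2)
        linarith
    rw [int_lin1 (cont_c2 hZ h1 t) (hexp t), ← v_eq hZ h1 t ht] at e2
    have e4 := exp_int ε t t hε ht
    rw [sub_self, mul_zero, Real.exp_zero] at e4
    have e5 : 2 * A / ε ^ 2 * ∫ q in (0:ℝ)..t, Real.exp (-ε * (t - q)) ≤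
        2 * A / ε ^ 2 * (1 / ε) :=
      mul_le_mul_of_nonneg_left e4 (by positivity)
    have e6 : 3 * (2 * A / ε ^ 2 * (1 / ε)) = 6 * A / ε ^ 3 := by
      field_simp
      ring
    rw [← e6]
    linarith
  -- step 4
  have e1 := hZ.pow_id (Y := fun _ => 1) aestronglyMeasurable_const (M := 1) (by simp) 3 hT
  norm_num at e1
  rw [e1]
  have hproc : GoodProc (fun t ω => prim Z t ω ^ 3 * Z t ω) P := (hZ.prim.pow 3).mul hZ
  have e2 : ∫ t in (0:ℝ)..T, (∫ ω, prim Z t ω ^ 3 * Z t ω ∂P) ≤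
      ∫ t in (0:ℝ)..T, (3 * V * (∫ ω, prim Z t ω * Z t ω ∂P) + 6 * A / ε ^ 3) := by
    apply intervalIntegral.integral_mono_on hT
    · exact hproc.continuous_expect.intervalIntegrable _ _
    · exact ((continuous_const.mul hvc).add continuous_const).intervalIntegrable _ _
    · intro t ht
      have := step3 t ht.1 ht.2
      simp only [mul_comm (prim Z _ _ ^ 3)]
      exact this
  rw [int_lin3 hvc, sub_zero] at e2
  have e3 := V_eq hZ T hT
  rw [← hV] at e3
  have e4 : (∫ t in (0:ℝ)..T, ∫ ω, prim Z t ω * Z t ω ∂P) = V / 2 := by linarith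
  rw [e4] at e2
  have e5 : 4 * (3 * V * (V / 2) + 6 * A / ε ^ 3 * T) = 6 * V ^ 2 + 24 * A * T / ε ^ 3 := by
    ring
  linarith

theorem second {δ u₀ : ℝ} (hδ : 0 ≤ δ) (hu : 0 ≤ u₀)
    (hpos : ∀ s t, 0 ≤ s → s ≤ t → 0 ≤ ∫ ω, Z s ω * Z t ω ∂P)
    (hlow : ∀ s t, 0 ≤ s → s ≤ t → t ≤ s + u₀ → δ ≤ ∫ ω, Z s ω * Z t ω ∂P)
    (T : ℝ) (hT : 2 * u₀ ≤ T) :
    T * u₀ * δ ≤ ∫ ω, prim Z T ω ^ 2 ∂P := by
  have hT0 : 0 ≤ T := by linarith
  have hvproc : GoodProc (fun t ω => prim Z t ω * Z t ω) P := hZ.prim.mul hZ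
  have hvc : Continuous (fun t => ∫ ω, prim Z t ω * Z t ω ∂P) := hvproc.continuous_expect
  have hv0 : ∀ t, 0 ≤ t → 0 ≤ ∫ ω, prim Z t ω * Z t ω ∂P := by
    intro t ht
    rw [v_eq hZ h1 t ht]
    apply intervalIntegral.integral_nonneg ht
    intro q hq
    exact hpos q t hq.1 hq.2
  have hv1 : ∀ t, u₀ ≤ t → u₀ * δ ≤ ∫ ω, prim Z t ω * Z t ω ∂P := by
    intro t ht
    rw [v_eq hZ h1 t (hu.trans ht)]
    have hc := cont_c2 hZ h1 t
    rw [← intervalIntegral.integral_add_adjacent_intervals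
      (hc.intervalIntegrable (μ := volume) 0 (t - u₀)) (hc.intervalIntegrable (t - u₀) t)]
    have e1 : 0 ≤ ∫ q in (0:ℝ)..(t - u₀), (∫ ω, Z q ω * Z t ω ∂P) := by
      apply intervalIntegral.integral_nonneg (by linarith)
      intro q hq
      exact hpos q t hq.1 (by linarith [hq.2])
    have e2 : ∫ q in (t - u₀)..t, δ ≤ ∫ q in (t - u₀)..t, (∫ ω, Z q ω * Z t ω ∂P) := by
      apply intervalIntegral.integral_mono_on (by linarith)
        (continuous_const.intervalIntegrable _ _) (hc.intervalIntegrable _ _)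
      intro q hq
      exact hlow q t (by linarith [hq.1]) hq.2 (by linarith [hq.1])
    rw [intervalIntegral.integral_const, smul_eq_mul] at e2
    linarith
  rw [V_eq hZ T hT0]
  rw [← intervalIntegral.integral_add_adjacent_intervals
      (hvc.intervalIntegrable (μ := volume) 0 u₀) (hvc.intervalIntegrable u₀ T)]
  have e1 : 0 ≤ ∫ t in (0:ℝ)..u₀, (∫ ω, prim Z t ω * Z t ω ∂P) :=
    intervalIntegral.integral_nonneg hu (fun q hq => hv0 q hq.1)
  have e2 : ∫ t in u₀..T, u₀ * δ ≤ ∫ t in u₀..T, (∫ ω, prim Z t ω * Z t ω ∂P) := by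
    apply intervalIntegral.integral_mono_on (by linarith)
      (continuous_const.intervalIntegrable _ _) (hvc.intervalIntegrable _ _)
    intro q hq
    exact hv1 q hq.1
  rw [intervalIntegral.integral_const, smul_eq_mul] at e2
  have e3 : 0 ≤ u₀ * δ := by positivity
  nlinarith

/-- lower bound for the first absolute moment -/
theorem first {A ε δ u₀ : ℝ} (hA : 0 ≤ A) (hε : 0 < ε) (hδ : 0 < δ) (hu : 0 < u₀)
    (hpos : ∀ s t, 0 ≤ s → s ≤ t → 0 ≤ ∫ ω, Z s ω * Z t ω ∂P)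
    (hlow : ∀ s t, 0 ≤ s → s ≤ t → t ≤ s + u₀ → δ ≤ ∫ ω, Z s ω * Z t ω ∂P)
    (h4 : ∀ q r s t, 0 ≤ q → q ≤ r → r ≤ s → s ≤ t →
      ∫ ω, Z q ω * Z r ω * Z s ω * Z t ω ∂P ≤
        (∫ ω, Z q ω * Z r ω ∂P) * (∫ ω, Z s ω * Z t ω ∂P) + A * Real.exp (-ε * (t - q)))
    (T : ℝ) (hT : 2 * u₀ ≤ T) (hT2 : 24 * A * T / ε ^ 3 ≤ (T * u₀ * δ) ^ 2) :
    Real.sqrt (T * u₀ * δ / 14) ≤ ∫ ω, |prim Z T ω| ∂P := by
  have hT0 : 0 < T := by linarith
  have h2 := second hZ h1 hδ.le hu.le hpos hlow T hT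
  have h3 := fourth hZ h1 hA hε hpos h4 T hT0.le
  set V := ∫ ω, prim Z T ω ^ 2 ∂P with hV
  have hW0 : 0 < T * u₀ * δ := by positivity
  have hV0 : 0 < V := lt_of_lt_of_le hW0 h2
  have h5 : ∫ ω, prim Z T ω ^ 4 ∂P ≤ 7 * V ^ 2 := by
    have : (T * u₀ * δ) ^ 2 ≤ V ^ 2 := pow_le_pow_left₀ hW0.le h2 2
    linarith
  set s := Real.sqrt (14 * V) with hs
  have hs0 : 0 < s := Real.sqrt_pos.mpr (by positivity)
  have hs2 : s ^ 2 = 14 * V := Real.sq_sqrt (by positivity)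
  have hpt : ∀ x : ℝ, 2 * (x ^ 2 / s - x ^ 4 / s ^ 3) ≤ |x| := by
    intro x
    have key : ∀ y : ℝ, 0 ≤ y → 2 * (y ^ 2 - y ^ 4) ≤ y := by
      intro y hy
      nlinarith [mul_nonneg hy (sq_nonneg (2 * y ^ 2 - 1)), mul_nonneg hy (sq_nonneg (y - 1)),
        mul_nonneg hy (sq_nonneg (2 * y - 1)), mul_nonneg hy (mul_nonneg hy (sq_nonneg (y - 1))),
        mul_nonneg hy (mul_nonneg hy (sq_nonneg (2 * y - 1))),
        mul_nonneg hy (mul_nonneg hy (sq_nonneg (5 * y - 3))),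
        mul_nonneg hy (sq_nonneg (5 * y - 3)), pow_nonneg hy 3]
    have h6 := key (|x| / s) (by positivity)
    have h7 : (|x| / s) ^ 2 = x ^ 2 / s ^ 2 := by rw [div_pow, sq_abs]
    have h8 : (|x| / s) ^ 4 = x ^ 4 / s ^ 4 := by
      rw [div_pow]
      have : |x| ^ 4 = x ^ 4 := by
        rw [show (4 : ℕ) = 2 * 2 from rfl, pow_mul, pow_mul, sq_abs]
      rw [this]
    rw [h7, h8] at h6
    have h9 := mul_le_mul_of_nonneg_right h6 hs0.le
    have h10 : |x| / s * s = |x| := by field_simp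
    have h11 : 2 * (x ^ 2 / s ^ 2 - x ^ 4 / s ^ 4) * s = 2 * (x ^ 2 / s - x ^ 4 / s ^ 3) := by
      field_simp
    rw [h10, h11] at h9
    exact h9
  have hi2 : Integrable (fun ω => prim Z T ω ^ 2) P := (hZ.prim.pow 2).integrable T
  have hi4 : Integrable (fun ω => prim Z T ω ^ 4) P := (hZ.prim.pow 4).integrable T
  have hi1 : Integrable (fun ω => |prim Z T ω|) P := (hZ.prim.integrable T).abs
  have h6 : ∫ ω, 2 * (prim Z T ω ^ 2 / s - prim Z T ω ^ 4 / s ^ 3) ∂P ≤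
      ∫ ω, |prim Z T ω| ∂P := by
    apply integral_mono
    · exact ((hi2.div_const s).sub (hi4.div_const (s ^ 3))).const_mul 2
    · exact hi1
    · intro ω
      exact hpt _
  rw [integral_const_mul, integral_sub (hi2.div_const s) (hi4.div_const (s ^ 3)),
    integral_div, integral_div] at h6
  have h7 : (∫ ω, prim Z T ω ^ 4 ∂P) / s ^ 3 ≤ V / (2 * s) := by
    rw [div_le_div_iff₀ (by positivity) (by positivity)]
    have : V * s ^ 3 = s * (14 * V ^ 2) := by
      have : s ^ 3 = s * s ^ 2 := by ring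
      rw [this, hs2]; ring
    rw [this]
    nlinarith
  have h8 : V / s ≤ ∫ ω, |prim Z T ω| ∂P := by
    have : 2 * (V / s - V / (2 * s)) = V / s := by field_simp; ring
    linarith
  refine le_trans ?_ h8
  rw [le_div_iff₀ hs0, hs, ← Real.sqrt_mul (by positivity)]
  have h9 : T * u₀ * δ / 14 * (14 * V) = T * u₀ * δ * V := by ring
  rw [h9]
  calc Real.sqrt (T * u₀ * δ * V) ≤ Real.sqrt (V * V) :=
        Real.sqrt_le_sqrt (mul_le_mul_of_nonneg_right h2 hV0.le)
    _ = V := Real.sqrt_mul_self hV0.le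

end

end Pool.Agent.Lib.MP_1d7982_pr
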