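import Pool.Agent.Lib.MP_1d7982_pr.Process
import Pool.Agent.Lib.MP_1d7982_pr.Holder
import Pool.Agent.Lib.MP_1d7982_pr.Moments

open MeasureTheory ProbabilityTheory Filter Topology Set
open scoped NNReal ENNReal

namespace Pool.Agent.Lib.MP_1d7982_pr

variable {Ω : Type*} [MeasurableSpace Ω]

theorem norm_le_tdist (x y : T3) : ‖x - y‖ ≤ tdist x y := by
  unfold tdist
  rw [pi_norm_le_iff_of_nonneg (Real.sqrt_nonneg _)]
  intro i
  rw [Pi.sub_apply, ← Real.sqrt_sq (norm_nonneg (x i - y i))]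
  apply Real.sqrt_le_sqrt
  exact Finset.single_le_sum (f := fun i => ‖x i - y i‖ ^ 2) (fun j _ => by positivity)
    (Finset.mem_univ i)

theorem continuous_tdist : Continuous (fun z : T3 × T3 => tdist z.1 z.2) := by
  unfold tdist
  fun_prop

/-- Duality lower bound. -/
theorem cost_ge {μ : Measure T3} [IsFiniteMeasure μ] (f : C(T3, ℝ))
    (hf : ∀ x y, |f x - f y| ≤ 20 * Real.sqrt ‖x - y‖) (hf0 : ∫ x, f x = 0) :
    ENNReal.ofReal ((∫ x, f x ∂μ) / 20) ≤ torusCost (1 / 2) μ := by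
  unfold torusCost transportCost
  refine le_iInf₂ (fun π hπ => ?_)
  obtain ⟨h1, h2⟩ := hπ
  haveI : IsFiniteMeasure π := by
    refine ⟨?_⟩
    have : π Set.univ = μ Set.univ := by
      rw [← h1, Measure.map_apply measurable_fst MeasurableSet.univ, Set.preimage_univ]
    rw [this]
    exact measure_lt_top _ _
  let c : C(T3 × T3, ℝ) := ⟨fun z => tdist z.1 z.2 ^ (1 / 2 : ℝ), by
    have := continuous_tdist
    exact this.rpow_const (fun _ => Or.inr (by norm_num))⟩
  have hint : ∀ g : C(T3 × T3, ℝ), Integrable (fun z => g z) π := fun g =>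
    Integrable.of_bound g.continuous.aestronglyMeasurable ‖g‖
      (Eventually.of_forall (fun p => g.norm_coe_le_norm _))
  have e1 : ∫⁻ z, ENNReal.ofReal (tdist z.1 z.2 ^ (1 / 2 : ℝ)) ∂π =
      ENNReal.ofReal (∫ z, tdist z.1 z.2 ^ (1 / 2 : ℝ) ∂π) := by
    have hc : Integrable (fun z : T3 × T3 => tdist z.1 z.2 ^ (1 / 2 : ℝ)) π := hint c
    rw [ofReal_integral_eq_lintegral_ofReal hc]
    exact Eventually.of_forall (fun z => Real.rpow_nonneg (Real.sqrt_nonneg _) _)
  rw [e1]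
  apply ENNReal.ofReal_le_ofReal
  have e2 : ∫ z : T3 × T3, (f z.1 - f z.2) / 20 ∂π ≤ ∫ z, tdist z.1 z.2 ^ (1 / 2 : ℝ) ∂π := by
    apply integral_mono
    · exact hint ⟨fun z => (f z.1 - f z.2) / 20, by fun_prop⟩
    · exact hint c
    · intro z
      have h3 := (le_abs_self _).trans (hf z.1 z.2)
      have h4 : Real.sqrt ‖z.1 - z.2‖ ≤ tdist z.1 z.2 ^ (1 / 2 : ℝ) := by
        rw [← Real.sqrt_eq_rpow]
        exact Real.sqrt_le_sqrt (norm_le_tdist _ _)
      simp only
      linarith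
  refine le_trans (le_of_eq ?_) e2
  have i1 : Integrable (fun z : T3 × T3 => f z.1) π := hint ⟨fun z => f z.1, by fun_prop⟩
  have i2 : Integrable (fun z : T3 × T3 => f z.2) π := hint ⟨fun z => f z.2, by fun_prop⟩
  rw [integral_div, integral_sub i1 i2]
  have e3 : ∫ z : T3 × T3, f z.1 ∂π = ∫ x, f x ∂μ := by
    rw [← h1, integral_map (by fun_prop) (by fun_prop)]
  have e4 : ∫ z : T3 × T3, f z.2 ∂π = 0 := by
    have : ∫ z : T3 × T3, f z.2 ∂π = ∫ x, f x ∂(π.map Prod.snd) := by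
      rw [integral_map (by fun_prop) (by fun_prop)]
    rw [this, h2, integral_smul_measure, hf0, smul_zero]
  rw [e3, e4, sub_zero]

/-- the real-time observable `t ↦ f (B_t)` -/
noncomputable def obs (B : ℝ≥0 → Ω → T3) (f : C(T3, ℝ)) : ℝ → Ω → ℝ := fun t ω => f (B t.toNNReal ω)

/-- Pathwise lower bound. -/
theorem path_bound (B : ℝ≥0 → Ω → T3) {T : ℝ} (hT : 0 ≤ T) (ω : Ω)
    (hω : Continuous (fun t => B t ω)) (K : ℕ) :
    ENNReal.ofReal ((∑ k ∈ Finset.range K, (1 / 2 : ℝ) ^ k *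
      ∑ j : Fin 3 → Fin (4 ^ k), |prim (obs B (bump (1 / (4 * ((4 ^ k : ℕ) : ℝ))) (cen (4 ^ k) j))) T ω|) / 20) ≤
      torusCost (1 / 2) (occupation B T ω) := by
  have hpath : Continuous (fun t : ℝ => B t.toNNReal ω) := hω.comp continuous_real_toNNReal
  haveI : IsFiniteMeasure (occupation B T ω) := by
    unfold occupation
    infer_instance
  let X : ∀ k : ℕ, (Fin 3 → Fin (4 ^ k)) → ℝ := fun k j =>
    prim (obs B (bump (1 / (4 * ((4 ^ k : ℕ) : ℝ))) (cen (4 ^ k) j))) T ω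
  let s : ∀ k : ℕ, (Fin 3 → Fin (4 ^ k)) → ℝ := fun k j => if 0 ≤ X k j then 1 else -1
  have hs : ∀ k j, |s k j| ≤ 1 := by
    intro k j
    simp only [s]
    split_ifs <;> simp
  have hsX : ∀ k j, s k j * X k j = |X k j| := by
    intro k j
    simp only [s]
    split_ifs with h
    · rw [one_mul, abs_of_nonneg h]
    · rw [abs_of_neg (not_le.mp h)]; ring
  have h1 := cost_ge (μ := occupation B T ω) (testFun K s) (testFun_holder K hs)
    (testFun_integral K s)
  refine le_trans (le_of_eq ?_) h1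
  congr 2
  -- the integral of the test function
  have h2 : ∀ g : C(T3, ℝ), ∫ x, g x ∂(occupation B T ω) = prim (obs B g) T ω := by
    intro g
    unfold occupation
    rw [integral_map hpath.measurable.aemeasurable (by fun_prop)]
    unfold prim obs
    rw [intervalIntegral.integral_of_le hT, integral_Icc_eq_integral_Ioc]
  have h3 : ∀ k, ∫ x, scaleFun (4 ^ k) (s k) x ∂(occupation B T ω) = ∑ j, |X k j| := by
    intro k
    unfold scaleFun
    simp only [ContinuousMap.coe_sum, Finset.sum_apply, ContinuousMap.smul_apply, smul_eq_mul]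
    rw [integral_finsetSum _ (fun j _ => (integrable_C _ _).const_mul _)]
    apply Finset.sum_congr rfl
    intro j _
    rw [integral_const_mul, h2, ← hsX]
  unfold testFun
  simp only [ContinuousMap.coe_sum, Finset.sum_apply, ContinuousMap.smul_apply, smul_eq_mul]
  rw [integral_finsetSum _ (fun j _ => (integrable_C _ _).const_mul _)]
  apply Finset.sum_congr rfl
  intro k _
  rw [integral_const_mul, h3]

section process

variable {P : Measure Ω} [IsProbabilityMeasure P]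

theorem obs_good {B : ℝ≥0 → Ω → T3} (hB : IsStationaryBM B P) (f : C(T3, ℝ)) :
    GoodProc (obs B f) P := by
  obtain ⟨U, W, hW, hU, hUl, hUW, hBe⟩ := hB
  have hBm : ∀ t, AEMeasurable (B t) P := by
    intro t
    have h1 : AEMeasurable (fun ω => U ω + proj (W t ω)) P :=
      hU.add (measurable_proj.comp_aemeasurable (hW.aemeas t))
    refine h1.congr ?_
    filter_upwards [hBe] with ω hω
    rw [hω t]
    rfl
  refine ⟨fun t => ?_, ?_, fun R => ⟨‖f‖, fun t _ => Eventually.of_forall (fun ω => ?_)⟩⟩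
  · exact (f.continuous.measurable.comp_aemeasurable (hBm _)).aestronglyMeasurable
  · filter_upwards [hBe, hW.cont] with ω hω hc
    have h1 : Continuous (fun t => B t ω) := by
      have h2 : (fun t => B t ω) = fun t => U ω + proj (W t ω) := by
        funext t
        rw [hω t]
        rfl
      rw [h2]
      exact continuous_const.add (continuous_proj.comp hc)
    exact f.continuous.comp (h1.comp continuous_real_toNNReal)
  · exact bdd_C f _

theorem path_cont {B : ℝ≥0 → Ω → T3} (hB : IsStationaryBM B P) :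
    ∀ᵐ ω ∂P, Continuous (fun t => B t ω) := by
  obtain ⟨U, W, hW, hU, hUl, hUW, hBe⟩ := hB
  filter_upwards [hBe, hW.cont] with ω hω hc
  have h2 : (fun t => B t ω) = fun t => U ω + proj (W t ω) := by
    funext t
    rw [hω t]
    rfl
  rw [h2]
  exact continuous_const.add (continuous_proj.comp hc)

/-- Lower bound for the first absolute moment of the additive functional of a bump. -/
theorem bump_first {B : ℝ≥0 → Ω → T3} (hB : IsStationaryBM B P) {r : ℝ} (hr : 0 < r)
    (hr2 : r ≤ 1 / 4) (c : T3) {T : ℝ} (hT1 : 1 ≤ T)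
    (hT2 : 24 * 108 * T / (1 / 125 : ℝ) ^ 3 ≤ (T * (r ^ 2 / 768) * (r ^ 3 / 8)) ^ 2) :
    Real.sqrt (T * (r ^ 2 / 768) * (r ^ 3 / 8) / 14) ≤ ∫ ω, |prim (obs B (bump r c)) T ω| ∂P := by
  have hgood := obs_good hB (bump r c)
  obtain ⟨U, W, hW, hU, hUl, hUW, hBe⟩ := hB
  have hobs : ∀ t, ∀ᵐ ω ∂P, obs B (bump r c) t ω = bump r c (U ω + proj (W t.toNNReal ω)) := by
    intro t
    filter_upwards [hBe] with ω hω
    unfold obs
    rw [hω]
    rfl
  have h1 : ∀ t, ∀ᵐ ω ∂P, |obs B (bump r c) t ω| ≤ 1 := fun t =>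
    Eventually.of_forall (fun ω => (bdd_C _ _).trans (bump_norm hr c))
  have h2p : ∀ s t : ℝ, 0 ≤ s → s ≤ t → ∫ ω, obs B (bump r c) s ω * obs B (bump r c) t ω ∂P =
      ∫ x, bump r c x * Pt (t.toNNReal - s.toNNReal) (bump r c) x := by
    intro s t hs hst
    rw [← two_point hW hU hUW hUl (bump r c) (bump r c) (Real.toNNReal_le_toNNReal hst)]
    apply integral_congr_ae
    filter_upwards [hobs s, hobs t] with ω h3 h4
    rw [h3, h4]
  refine first hgood h1 (A := 108) (ε := 1 / 125) (δ := r ^ 3 / 8) (u₀ := r ^ 2 / 768)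
    (by norm_num) (by norm_num) (by positivity) (by positivity) ?_ ?_ ?_ T ?_ hT2
  · intro s t hs hst
    rw [h2p s t hs hst]
    exact Pt_pos _ _
  · intro s t hs hst htu
    rw [h2p s t hs hst]
    apply bump_low hr hr2 c
    rw [NNReal.coe_sub (Real.toNNReal_le_toNNReal hst), Real.coe_toNNReal _ hs,
      Real.coe_toNNReal _ (hs.trans hst)]
    linarith
  · intro q r' s t hq hqr hrs hst
    have h5 := four_point hW hU hUW hUl (bump r c) (bump_norm hr c) (bump_integral r c)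
      (Real.toNNReal_le_toNNReal hqr) (Real.toNNReal_le_toNNReal hrs)
      (Real.toNNReal_le_toNNReal hst)
    rw [Real.coe_toNNReal _ hq, Real.coe_toNNReal _ (hq.trans (hqr.trans (hrs.trans hst)))] at h5
    refine le_trans (le_of_eq ?_) (h5.trans (le_of_eq ?_))
    · apply integral_congr_ae
      filter_upwards [hobs q, hobs r', hobs s, hobs t] with ω a1 a2 a3 a4
      rw [a1, a2, a3, a4]
    · congr 1
      congr 1
      · apply integral_congr_ae
        filter_upwards [hobs q, hobs r'] with ω a1 a2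
        rw [a1, a2]
      · apply integral_congr_ae
        filter_upwards [hobs s, hobs t] with ω a1 a2
        rw [a1, a2]
  · nlinarith

theorem scale_bound {B : ℝ≥0 → Ω → T3} (hB : IsStationaryBM B P) {K : ℕ} {T : ℝ}
    (hT : (2:ℝ) ^ (60 + 20 * K) ≤ T) {k : ℕ} (hk : k < K) (c : T3) :
    Real.sqrt T / (9386 * 32 ^ k) ≤
      ∫ ω, |prim (obs B (bump (1 / (4 * ((4 ^ k : ℕ) : ℝ))) c)) T ω| ∂P := by
  have h4 : (0:ℝ) < 4 ^ k := by positivity
  have hcast : ((4 ^ k : ℕ) : ℝ) = 4 ^ k := by push_cast; ring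
  rw [hcast]
  have hT1 : 1 ≤ T := by
    refine le_trans ?_ hT
    exact one_le_pow₀ (by norm_num)
  have hT0 : 0 < T := by linarith
  have h32 : (4:ℝ) ^ k * 4 ^ k * 4 ^ k * 4 ^ k * 4 ^ k = 32 ^ k * 32 ^ k := by
    rw [← mul_pow, ← mul_pow, ← mul_pow, ← mul_pow, ← mul_pow]
    norm_num
  have hprod : T * ((1 / (4 * (4:ℝ) ^ k)) ^ 2 / 768) * ((1 / (4 * (4:ℝ) ^ k)) ^ 3 / 8) =
      T / (6291456 * (32 ^ k * 32 ^ k)) := by
    rw [← h32]
    field_simp
    ring
  have hbig : (5062500000 : ℝ) * (6291456 * (32 ^ k * 32 ^ k)) ^ 2 ≤ T := by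
    refine le_trans ?_ hT
    have h1 : ((32:ℝ) ^ k * 32 ^ k) ^ 2 = 2 ^ (20 * k) := by
      rw [← mul_pow, ← pow_mul, mul_comm k 2, pow_mul, pow_mul]
      norm_num
    rw [mul_pow, h1]
    have h2 : (2:ℝ) ^ (20 * k) ≤ 2 ^ (20 * (K - 1)) := by
      apply pow_le_pow_right₀ (by norm_num)
      omega
    have h3 : (2:ℝ) ^ (60 + 20 * K) = 2 ^ 80 * 2 ^ (20 * (K - 1)) := by
      rw [← pow_add]
      congr 1
      omega
    rw [h3]
    have h5 : (5062500000 : ℝ) * (6291456 ^ 2 * 2 ^ (20 * k)) =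
        (5062500000 * 6291456 ^ 2) * 2 ^ (20 * k) := by ring
    rw [h5]
    exact mul_le_mul (by norm_num) h2 (by positivity) (by positivity)
  have h := bump_first hB (r := 1 / (4 * (4:ℝ) ^ k)) (by positivity)
    (by
      have h6 : (1:ℝ) ≤ 4 ^ k := one_le_pow₀ (by norm_num)
      rw [div_le_div_iff₀ (by positivity) (by norm_num)]
      linarith) c hT1
    (by
      rw [hprod, div_pow T (6291456 * (32 ^ k * 32 ^ k)) 2, le_div_iff₀ (by positivity)]
      have h7 : 24 * 108 * T / (1 / 125 : ℝ) ^ 3 * (6291456 * (32 ^ k * 32 ^ k)) ^ 2 =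
          T * (5062500000 * (6291456 * (32 ^ k * 32 ^ k)) ^ 2) := by
        ring
      rw [h7]
      nlinarith)
  refine le_trans ?_ h
  rw [hprod]
  apply Real.le_sqrt_of_sq_le
  rw [div_pow, Real.sq_sqrt hT0.le, div_div, div_le_div_iff₀ (by positivity) (by positivity)]
  have h8 : (0:ℝ) < 32 ^ k * 32 ^ k := by positivity
  nlinarith [mul_pos hT0 h8]

theorem main_bound {B : ℝ≥0 → Ω → T3} (hB : IsStationaryBM B P) {K : ℕ} {T : ℝ}
    (hT : (2:ℝ) ^ (60 + 20 * K) ≤ T) :
    ENNReal.ofReal (K * Real.sqrt T / 187720) ≤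
      ∫⁻ ω, torusCost (1 / 2) (occupation B T ω) ∂P := by
  have hT1 : 1 ≤ T := by
    refine le_trans ?_ hT
    exact one_le_pow₀ (by norm_num)
  have hT0 : 0 < T := by linarith
  have h1 : ∫⁻ ω, ENNReal.ofReal ((∑ k ∈ Finset.range K, (1 / 2 : ℝ) ^ k *
      ∑ j : Fin 3 → Fin (4 ^ k),
        |prim (obs B (bump (1 / (4 * ((4 ^ k : ℕ) : ℝ))) (cen (4 ^ k) j))) T ω|) / 20) ∂P ≤
      ∫⁻ ω, torusCost (1 / 2) (occupation B T ω) ∂P := by
    apply lintegral_mono_ae
    filter_upwards [path_cont hB] with ω hω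
    exact path_bound B hT0.le ω hω K
  refine le_trans ?_ h1
  have hint : ∀ (k : ℕ) (j : Fin 3 → Fin (4 ^ k)), Integrable (fun ω =>
      |prim (obs B (bump (1 / (4 * ((4 ^ k : ℕ) : ℝ))) (cen (4 ^ k) j))) T ω|) P := fun k j =>
    ((obs_good hB _).prim.integrable T).abs
  have hint2 : ∀ k : ℕ, Integrable (fun ω => (1 / 2 : ℝ) ^ k * ∑ j : Fin 3 → Fin (4 ^ k),
      |prim (obs B (bump (1 / (4 * ((4 ^ k : ℕ) : ℝ))) (cen (4 ^ k) j))) T ω|) P := fun k =>
    (integrable_finsetSum _ (fun j _ => hint k j)).const_mul _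
  have hint3 : Integrable (fun ω => (∑ k ∈ Finset.range K, (1 / 2 : ℝ) ^ k *
      ∑ j : Fin 3 → Fin (4 ^ k),
        |prim (obs B (bump (1 / (4 * ((4 ^ k : ℕ) : ℝ))) (cen (4 ^ k) j))) T ω|) / 20) P :=
    (integrable_finsetSum _ (fun k _ => hint2 k)).div_const 20
  rw [← ofReal_integral_eq_lintegral_ofReal hint3 (Eventually.of_forall (fun ω => by positivity))]
  apply ENNReal.ofReal_le_ofReal
  rw [integral_div, integral_finsetSum _ (fun k _ => hint2 k)]
  have h2 : ∀ k ∈ Finset.range K, Real.sqrt T / 9386 ≤ ∫ ω, (1 / 2 : ℝ) ^ k *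
      ∑ j : Fin 3 → Fin (4 ^ k),
        |prim (obs B (bump (1 / (4 * ((4 ^ k : ℕ) : ℝ))) (cen (4 ^ k) j))) T ω| ∂P := by
    intro k hk
    rw [integral_const_mul, integral_finsetSum _ (fun j _ => hint k j)]
    have h3 : ∑ j : Fin 3 → Fin (4 ^ k), Real.sqrt T / (9386 * 32 ^ k) ≤
        ∑ j : Fin 3 → Fin (4 ^ k), ∫ ω,
          |prim (obs B (bump (1 / (4 * ((4 ^ k : ℕ) : ℝ))) (cen (4 ^ k) j))) T ω| ∂P :=
      Finset.sum_le_sum (fun j _ => scale_bound hB hT (Finset.mem_range.mp hk) _)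
    rw [Finset.sum_const, Finset.card_univ, Fintype.card_fun, Fintype.card_fin, Fintype.card_fin,
      nsmul_eq_mul] at h3
    have h4 := mul_le_mul_of_nonneg_left h3 (show (0:ℝ) ≤ (1 / 2) ^ k by positivity)
    refine le_trans (le_of_eq ?_) h4
    push_cast
    have h5 : ((4:ℝ) ^ k) ^ 3 = 2 ^ k * 32 ^ k := by
      rw [← pow_mul, mul_comm k 3, pow_mul, ← mul_pow]
      norm_num
    rw [h5, one_div, inv_pow]
    field_simp
  have h3 := Finset.sum_le_sum h2
  rw [Finset.sum_const, Finset.card_range, nsmul_eq_mul] at h3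
  have h4 : (K:ℝ) * Real.sqrt T / 187720 = (K * (Real.sqrt T / 9386)) / 20 := by ring
  rw [h4]
  exact div_le_div_of_nonneg_right h3 (by norm_num)

end process

end Pool.Agent.Lib.MP_1d7982_pr
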