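import Pool.Agent.Lib.MP_1d7982_pr.Semi
import Pool.Agent.Lib.MP_1d7982_pr.Fub

open MeasureTheory ProbabilityTheory Filter Topology Set
open scoped NNReal ENNReal

namespace Pool.Agent.Lib.MP_1d7982_pr

variable {Ω : Type*} [MeasurableSpace Ω] {P : Measure Ω}

theorem indep_assoc [IsProbabilityMeasure P] {α β γ : Type*} [MeasurableSpace α]
    [MeasurableSpace β] [MeasurableSpace γ] {X : Ω → α} {A : Ω → β} {C : Ω → γ}
    (hX : AEMeasurable X P) (hA : AEMeasurable A P) (hC : AEMeasurable C P)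
    (h1 : IndepFun X (fun ω => (A ω, C ω)) P) (h2 : IndepFun A C P) :
    IndepFun (fun ω => (X ω, A ω)) C P := by
  rw [indepFun_iff_map_prod_eq_prod_map_map (hX.prodMk hA) hC]
  have h3 : IndepFun X A P := h1.comp measurable_id measurable_fst
  rw [indepFun_iff_map_prod_eq_prod_map_map hX (hA.prodMk hC)] at h1
  rw [indepFun_iff_map_prod_eq_prod_map_map hA hC] at h2
  rw [indepFun_iff_map_prod_eq_prod_map_map hX hA] at h3
  rw [h3]
  rw [h2] at h1
  haveI : IsProbabilityMeasure (P.map X) := Measure.isProbabilityMeasure_map hX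
  haveI : IsProbabilityMeasure (P.map A) := Measure.isProbabilityMeasure_map hA
  haveI : IsProbabilityMeasure (P.map C) := Measure.isProbabilityMeasure_map hC
  have h4 : (fun ω => ((X ω, A ω), C ω)) =
      (MeasurableEquiv.prodAssoc.symm : α × β × γ → (α × β) × γ) ∘ (fun ω => (X ω, (A ω, C ω))) := by
    ext ω <;> rfl
  rw [h4, ← AEMeasurable.map_map_of_aemeasurable
    (MeasurableEquiv.prodAssoc.symm.measurable.aemeasurable) (hX.prodMk (hA.prodMk hC)), h1]
  exact ((measurePreserving_prodAssoc (P.map X) (P.map A) (P.map C)).symm _).map_eq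

/-- coordinatewise projection `ℝ³ → ℝ³/ℤ³` -/
noncomputable def proj (z : Fin 3 → ℝ) : T3 := fun i => ((z i : ℝ) : UnitAddCircle)

theorem measurable_proj : Measurable proj := by
  apply measurable_pi_lambda
  intro i
  exact meas_coe.comp (measurable_pi_apply i)

theorem continuous_proj : Continuous proj := by
  apply continuous_pi
  intro i
  exact (AddCircle.continuous_mk' 1).comp (continuous_apply i)

theorem proj_add (z w : Fin 3 → ℝ) : proj (z + w) = proj z + proj w := by
  ext i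
  simp [proj]

theorem proj_sub (z w : Fin 3 → ℝ) : proj (z - w) = proj z - proj w := by
  ext i
  simp [proj]

theorem proj_zero : proj 0 = 0 := by
  ext i
  simp [proj]

section

variable [IsProbabilityMeasure P] {U : Ω → T3} {W : ℝ≥0 → Ω → Fin 3 → ℝ}
  (hW : IsBrownian3 W P) (hU : AEMeasurable U P) (hUl : P.map U = volume)
  (hUW : IndepFun U (fun ω t => W t ω) P)

include hW hU hUW

theorem indep_past {q r s t : ℝ≥0} (hqr : q ≤ r) (hrs : r ≤ s) (hst : s ≤ t) :
    IndepFun (fun ω => (U ω + proj (W q ω), U ω + proj (W r ω), U ω + proj (W s ω)))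
      (fun ω => W t ω - W s ω) P := by
  -- increments
  let τ : Fin 5 → ℝ≥0 := ![0, q, r, s, t]
  have hτ : Monotone τ := by
    rw [Fin.monotone_iff_le_succ]
    intro i
    fin_cases i
    · exact zero_le
    · exact hqr
    · exact hrs
    · exact hst
  have h1 := hW.indep 4 τ hτ
  have hm : ∀ i : Fin 4, AEMeasurable (fun ω => W (τ i.succ) ω - W (τ i.castSucc) ω) P :=
    fun i => (hW.aemeas _).sub (hW.aemeas _)
  have h2 := h1.indepFun_finset₀ ({0, 1, 2} : Finset (Fin 4)) ({3} : Finset (Fin 4))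
    (by decide) hm
  have h3 : IndepFun (fun ω => (W q ω - W 0 ω, W r ω - W q ω, W s ω - W r ω))
      (fun ω => W t ω - W s ω) P := by
    have m3 : (3 : Fin 4) ∈ ({3} : Finset (Fin 4)) := by decide
    have hψ : Measurable (fun x : (∀ i : ({3} : Finset (Fin 4)), (Fin 3 → ℝ)) => x ⟨3, m3⟩) :=
      measurable_pi_apply (⟨3, m3⟩ : ({3} : Finset (Fin 4)))
    have := h2.comp
      (φ := fun x : (∀ i : ({0, 1, 2} : Finset (Fin 4)), (Fin 3 → ℝ)) =>
        (x ⟨0, by decide⟩, x ⟨1, by decide⟩, x ⟨2, by decide⟩))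
      (ψ := fun x : (∀ i : ({3} : Finset (Fin 4)), (Fin 3 → ℝ)) => x ⟨3, m3⟩)
      (by fun_prop) hψ
    exact this
  -- combine with `U`
  have hA : AEMeasurable (fun ω => (W q ω - W 0 ω, W r ω - W q ω, W s ω - W r ω)) P :=
    ((hW.aemeas _).sub (hW.aemeas _)).prodMk (((hW.aemeas _).sub (hW.aemeas _)).prodMk
      ((hW.aemeas _).sub (hW.aemeas _)))
  have hC : AEMeasurable (fun ω => W t ω - W s ω) P := (hW.aemeas _).sub (hW.aemeas _)
  have h4 : IndepFun U (fun ω => ((W q ω - W 0 ω, W r ω - W q ω, W s ω - W r ω),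
      W t ω - W s ω)) P := by
    have hΦ : Measurable (fun w : ℝ≥0 → Fin 3 → ℝ =>
        ((w q - w 0, w r - w q, w s - w r), w t - w s)) := by fun_prop
    exact hUW.comp measurable_id hΦ
  have h5 := indep_assoc hU hA hC h4 h3
  have h6 : IndepFun (fun ω => (U ω + proj (W q ω - W 0 ω),
      U ω + proj ((W r ω - W q ω) + (W q ω - W 0 ω)),
      U ω + proj ((W s ω - W r ω) + (W r ω - W q ω) + (W q ω - W 0 ω))))
      (fun ω => W t ω - W s ω) P := by
    have hg : Measurable (fun p : T3 × ((Fin 3 → ℝ) × (Fin 3 → ℝ) × (Fin 3 → ℝ)) =>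
        (p.1 + proj p.2.1, p.1 + proj (p.2.2.1 + p.2.1),
          p.1 + proj (p.2.2.2 + p.2.2.1 + p.2.1))) := by
      have hp := measurable_proj
      refine Measurable.prodMk ?_ (Measurable.prodMk ?_ ?_)
      · exact measurable_fst.add (hp.comp (by fun_prop))
      · exact measurable_fst.add (hp.comp (by fun_prop))
      · exact measurable_fst.add (hp.comp (by fun_prop))
    exact h5.comp hg measurable_id
  refine h6.congr ?_ (ae_eq_refl _)
  filter_upwards [hW.zero] with ω hω
  rw [hω]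
  simp

omit hU in
theorem law_int (hU : AEMeasurable U P) (hUl : P.map U = volume) (s : ℝ≥0) (g : C(T3, ℝ)) :
    ∫ ω, g (U ω + proj (W s ω)) ∂P = ∫ x, g x := by
  have h1 : IndepFun U (fun ω => proj (W s ω)) P := by
    have hΦ : Measurable (fun w : ℝ≥0 → Fin 3 → ℝ => proj (w s)) :=
      measurable_proj.comp (measurable_pi_apply s)
    exact hUW.comp measurable_id hΦ
  have hV : AEMeasurable (fun ω => proj (W s ω)) P :=
    measurable_proj.comp_aemeasurable (hW.aemeas s)
  rw [indepFun_iff_map_prod_eq_prod_map_map hU hV, hUl] at h1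
  haveI : IsProbabilityMeasure (P.map (fun ω => proj (W s ω))) :=
    Measure.isProbabilityMeasure_map hV
  have h2 : ∫ ω, g (U ω + proj (W s ω)) ∂P =
      ∫ p : T3 × T3, g (p.1 + p.2) ∂(P.map (fun ω => (U ω, proj (W s ω)))) := by
    rw [integral_map (hU.prodMk hV) (by fun_prop)]
  rw [h2, h1, integral_prod_symm]
  · have h3 : ∀ y : T3, ∫ x : T3, g (x + y) = ∫ x, g x := fun y =>
      integral_add_right_eq_self (μ := (volume : Measure T3)) (fun x => g x) y
    simp only [h3]
    simp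
  · exact Integrable.of_bound (by fun_prop) ‖g‖
      (Eventually.of_forall (fun y => g.norm_coe_le_norm _))

/-- Markov property (for functions of at most three past positions). -/
theorem markov (F : C(T3 × T3 × T3, ℝ)) (f : C(T3, ℝ)) {q r s t : ℝ≥0} (hqr : q ≤ r)
    (hrs : r ≤ s) (hst : s ≤ t) :
    ∫ ω, F (U ω + proj (W q ω), U ω + proj (W r ω), U ω + proj (W s ω)) *
        f (U ω + proj (W t ω)) ∂P =
      ∫ ω, F (U ω + proj (W q ω), U ω + proj (W r ω), U ω + proj (W s ω)) *
        Pt (t - s) f (U ω + proj (W s ω)) ∂P := by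
  have hind := indep_past hW hU hUW hqr hrs hst
  have hpm : ∀ s, AEMeasurable (fun ω => U ω + proj (W s ω)) P := fun s =>
    hU.add (measurable_proj.comp_aemeasurable (hW.aemeas s))
  have hY : AEMeasurable (fun ω => (U ω + proj (W q ω), U ω + proj (W r ω),
      U ω + proj (W s ω))) P := (hpm q).prodMk ((hpm r).prodMk (hpm s))
  have hD : AEMeasurable (fun ω => W t ω - W s ω) P := (hW.aemeas _).sub (hW.aemeas _)
  have hlaw := hW.gauss s t hst
  rw [indepFun_iff_map_prod_eq_prod_map_map hY hD, hlaw] at hind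
  haveI : IsProbabilityMeasure (P.map (fun ω => (U ω + proj (W q ω), U ω + proj (W r ω),
      U ω + proj (W s ω)))) := Measure.isProbabilityMeasure_map hY
  have hcp := continuous_proj
  have hmp := measurable_proj
  have h1 : ∫ ω, F (U ω + proj (W q ω), U ω + proj (W r ω), U ω + proj (W s ω)) *
        f (U ω + proj (W t ω)) ∂P =
      ∫ p : (T3 × T3 × T3) × (Fin 3 → ℝ), F p.1 * f (p.1.2.2 + proj p.2)
        ∂(P.map (fun ω => ((U ω + proj (W q ω), U ω + proj (W r ω), U ω + proj (W s ω)),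
          W t ω - W s ω))) := by
    rw [integral_map (hY.prodMk hD) (by fun_prop)]
    apply integral_congr_ae
    filter_upwards with ω
    have : U ω + proj (W s ω) + proj (W t ω - W s ω) = U ω + proj (W t ω) := by
      rw [add_assoc, ← proj_add]
      simp
    simp only [this]
  have hint : Integrable (fun p : (T3 × T3 × T3) × (Fin 3 → ℝ) => F p.1 * f (p.1.2.2 + proj p.2))
      ((P.map (fun ω => (U ω + proj (W q ω), U ω + proj (W r ω), U ω + proj (W s ω)))).prod
        (Measure.pi (fun _ : Fin 3 => gaussianReal 0 (t - s)))) :=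
    Integrable.of_bound (by fun_prop) (‖F‖ * ‖f‖)
      (Eventually.of_forall (fun p => by
        rw [norm_mul]
        exact mul_le_mul (F.norm_coe_le_norm _) (f.norm_coe_le_norm _) (norm_nonneg _)
          (norm_nonneg _)))
  rw [h1, hind, integral_prod _ hint]
  have h2 : ∀ y : T3 × T3 × T3, ∫ z, F y * f (y.2.2 + proj z)
      ∂(Measure.pi (fun _ : Fin 3 => gaussianReal 0 (t - s))) = F y * Pt (t - s) f y.2.2 := by
    intro y
    rw [integral_const_mul, Pt_apply, gam_eq]
    congr 1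
    have : (fun z : Fin 3 → ℝ => fun i => ((z i : ℝ) : UnitAddCircle)) = proj := rfl
    rw [this, integral_map hmp.aemeasurable (by fun_prop)]
  simp only [h2]
  rw [integral_map hY (by fun_prop)]

/-- two-point function -/
theorem two_point (hUl : P.map U = volume) (f g : C(T3, ℝ)) {s t : ℝ≥0} (hst : s ≤ t) :
    ∫ ω, f (U ω + proj (W s ω)) * g (U ω + proj (W t ω)) ∂P = ∫ x, f x * Pt (t - s) g x := by
  let F : C(T3 × T3 × T3, ℝ) := ⟨fun p => f p.2.2, by fun_prop⟩
  have h1 := markov hW hU hUW F g (le_refl s) (le_refl s) hst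
  have h2 := law_int hW hUW hU hUl s (f * Pt (t - s) g)
  simp only [F, ContinuousMap.coe_mk] at h1
  rw [h1]
  simpa using h2

omit hW hU hUW in
theorem norm_center (f : C(T3, ℝ)) : ‖f - ContinuousMap.const T3 (∫ x, f x)‖ ≤ 2 * ‖f‖ := by
  have h1 : ‖ContinuousMap.const T3 (∫ x, f x)‖ ≤ ‖f‖ := by
    rw [ContinuousMap.norm_le _ (norm_nonneg f)]
    intro x
    have := norm_integral_le_of_norm_le_const (μ := (volume : Measure T3)) (f := fun y => f y)
      (C := ‖f‖) (Eventually.of_forall (fun y => f.norm_coe_le_norm _))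
    simpa using this
  have := norm_sub_le f (ContinuousMap.const T3 (∫ x, f x))
  linarith

omit hW hU hUW in
theorem integral_center (f : C(T3, ℝ)) :
    ∫ x, (f - ContinuousMap.const T3 (∫ x, f x)) x = 0 := by
  simp only [ContinuousMap.sub_apply, ContinuousMap.const_apply]
  rw [integral_sub (integrable_C _ f) (integrable_const _)]
  simp

omit hW hU hUW in
theorem norm_mul_le_one {f g : C(T3, ℝ)} (hf : ‖f‖ ≤ 1) : ‖f * g‖ ≤ ‖g‖ := by
  have := norm_mul_le f g
  nlinarith [norm_nonneg g, norm_nonneg f]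

/-- four-point bound -/
theorem four_point (hUl : P.map U = volume) (f : C(T3, ℝ)) (hf : ‖f‖ ≤ 1) (hf0 : ∫ x, f x = 0)
    {q r s t : ℝ≥0} (hqr : q ≤ r) (hrs : r ≤ s) (hst : s ≤ t) :
    ∫ ω, f (U ω + proj (W q ω)) * f (U ω + proj (W r ω)) * f (U ω + proj (W s ω)) *
        f (U ω + proj (W t ω)) ∂P ≤
      (∫ ω, f (U ω + proj (W q ω)) * f (U ω + proj (W r ω)) ∂P) *
        (∫ ω, f (U ω + proj (W s ω)) * f (U ω + proj (W t ω)) ∂P) +
      108 * Real.exp (-(1 / 125) * ((t : ℝ) - q)) := by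
  have hpm : ∀ s, AEMeasurable (fun ω => U ω + proj (W s ω)) P := fun s =>
    hU.add (measurable_proj.comp_aemeasurable (hW.aemeas s))
  have hpi : ∀ (g h : C(T3, ℝ)) (s t : ℝ≥0),
      Integrable (fun ω => g (U ω + proj (W s ω)) * h (U ω + proj (W t ω))) P := by
    intro g h s t
    refine Integrable.of_bound ?_ (‖g‖ * ‖h‖) (Eventually.of_forall (fun ω => ?_))
    · exact ((g.continuous.measurable.comp_aemeasurable (hpm s)).mul
        (h.continuous.measurable.comp_aemeasurable (hpm t))).aestronglyMeasurable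
    · rw [norm_mul]
      exact mul_le_mul (g.norm_coe_le_norm _) (h.norm_coe_le_norm _) (norm_nonneg _)
        (norm_nonneg _)
  -- step 1
  let F₁ : C(T3 × T3 × T3, ℝ) := ⟨fun p => f p.1 * f p.2.1 * f p.2.2, by fun_prop⟩
  have e1 := markov hW hU hUW F₁ f hqr hrs hst
  simp only [F₁, ContinuousMap.coe_mk] at e1
  rw [e1]
  set ψ : C(T3, ℝ) := f * Pt (t - s) f with hψ
  set m : ℝ := ∫ x, ψ x with hm
  have hm2 : ∫ ω, f (U ω + proj (W s ω)) * f (U ω + proj (W t ω)) ∂P = m := by
    rw [two_point hW hU hUW hUl f f hst]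
    rfl
  rw [hm2]
  set ψ₀ : C(T3, ℝ) := ψ - ContinuousMap.const T3 m with hψ₀
  -- step 2
  let F₂ : C(T3 × T3 × T3, ℝ) := ⟨fun p => f p.1 * f p.2.2, by fun_prop⟩
  have e2 := markov hW hU hUW F₂ ψ (le_refl q) hqr hrs
  simp only [F₂, ContinuousMap.coe_mk] at e2
  have e3 : ∀ ω, f (U ω + proj (W q ω)) * f (U ω + proj (W r ω)) * f (U ω + proj (W s ω)) *
        Pt (t - s) f (U ω + proj (W s ω)) =
      f (U ω + proj (W q ω)) * f (U ω + proj (W r ω)) * ψ (U ω + proj (W s ω)) := by
    intro ω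
    simp only [hψ, ContinuousMap.mul_apply]
    ring
  simp only [e3]
  rw [e2]
  have e4 : Pt (s - r) ψ = Pt (s - r) ψ₀ + ContinuousMap.const T3 m := by
    rw [hψ₀, Pt_sub, Pt_const]
    simp
  set h : C(T3, ℝ) := f * Pt (s - r) ψ₀ with hh
  have e5 : ∀ ω, f (U ω + proj (W q ω)) * f (U ω + proj (W r ω)) *
        Pt (s - r) ψ (U ω + proj (W r ω)) =
      f (U ω + proj (W q ω)) * f (U ω + proj (W r ω)) * m +
        f (U ω + proj (W q ω)) * h (U ω + proj (W r ω)) := by
    intro ω
    rw [e4]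
    simp only [hh, ContinuousMap.mul_apply, ContinuousMap.add_apply, ContinuousMap.const_apply]
    ring
  simp only [e5]
  rw [integral_add ((hpi f f q r).mul_const m) (hpi f h q r), integral_mul_const]
  have e6 : ∫ ω, f (U ω + proj (W q ω)) * h (U ω + proj (W r ω)) ∂P ≤
      108 * Real.exp (-(1 / 125) * ((t : ℝ) - q)) := by
    rw [two_point hW hU hUW hUl f h hqr]
    set h₀ : C(T3, ℝ) := h - ContinuousMap.const T3 (∫ x, h x) with hh₀
    have e7 : Pt (r - q) h = Pt (r - q) h₀ + ContinuousMap.const T3 (∫ x, h x) := by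
      rw [hh₀, Pt_sub, Pt_const]
      simp
    have e8 : ∫ x, f x * Pt (r - q) h x = ∫ x, (f * Pt (r - q) h₀) x := by
      rw [e7]
      simp only [ContinuousMap.add_apply, ContinuousMap.const_apply, mul_add,
        ContinuousMap.mul_apply]
      have i1 : Integrable (fun x => f x * Pt (r - q) h₀ x) (volume : Measure T3) :=
        integrable_C _ (f * Pt (r - q) h₀)
      rw [integral_add i1 ((integrable_C _ f).mul_const _), integral_mul_const, hf0]
      simp
    rw [e8]
    have e9 : ∫ x, (f * Pt (r - q) h₀) x ≤ ‖f * Pt (r - q) h₀‖ := by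
      have := norm_integral_le_of_norm_le_const (μ := (volume : Measure T3))
        (f := fun y => (f * Pt (r - q) h₀) y) (C := ‖f * Pt (r - q) h₀‖)
        (Eventually.of_forall (fun y => ContinuousMap.norm_coe_le_norm _ _))
      have h2 := le_trans (le_abs_self _) this
      simpa using h2
    refine e9.trans ?_
    have n1 : ‖f * Pt (r - q) h₀‖ ≤ ‖Pt (r - q) h₀‖ := norm_mul_le_one hf
    have n2 := Pt_mix (r - q) h₀ (integral_center h)
    have n3 : ‖h₀‖ ≤ 2 * ‖h‖ := norm_center h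
    have n4 : ‖h‖ ≤ ‖Pt (s - r) ψ₀‖ := norm_mul_le_one hf
    have n5 := Pt_mix (s - r) ψ₀ (integral_center ψ)
    have n6 : ‖ψ₀‖ ≤ 2 * ‖ψ‖ := norm_center ψ
    have n7 : ‖ψ‖ ≤ ‖Pt (t - s) f‖ := norm_mul_le_one hf
    have n8 := Pt_mix (t - s) f hf0
    have c1 : ((r - q : ℝ≥0) : ℝ) = r - q := NNReal.coe_sub hqr
    have c2 : ((s - r : ℝ≥0) : ℝ) = s - r := NNReal.coe_sub hrs
    have c3 : ((t - s : ℝ≥0) : ℝ) = t - s := NNReal.coe_sub hst
    rw [c1] at n2
    rw [c2] at n5
    rw [c3] at n8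
    set A := Real.exp (-(1 / 125) * ((r : ℝ) - q)) with hA
    set B := Real.exp (-(1 / 125) * ((s : ℝ) - r)) with hB
    set D := Real.exp (-(1 / 125) * ((t : ℝ) - s)) with hD
    have hABD : Real.exp (-(1 / 125) * ((t : ℝ) - q)) = A * B * D := by
      rw [hA, hB, hD, ← Real.exp_add, ← Real.exp_add]
      congr 1
      ring
    have hA0 : 0 < A := Real.exp_pos _
    have hB0 : 0 < B := Real.exp_pos _
    have hD0 : 0 < D := Real.exp_pos _
    have m1 : ‖ψ₀‖ ≤ 6 * D := by
      have : 3 * D * ‖f‖ ≤ 3 * D * 1 := mul_le_mul_of_nonneg_left hf (by positivity)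
      linarith
    have m2 : ‖h‖ ≤ 18 * (B * D) := by
      have : 3 * B * ‖ψ₀‖ ≤ 3 * B * (6 * D) := mul_le_mul_of_nonneg_left m1 (by positivity)
      linarith
    have m3 : 3 * A * ‖h₀‖ ≤ 3 * A * (36 * (B * D)) :=
      mul_le_mul_of_nonneg_left (by linarith) (by positivity)
    rw [hABD]
    linarith
  linarith

end

end Pool.Agent.Lib.MP_1d7982_pr
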