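import Pool.Agent.Lib.MP_1d7982_pr.Defs

open MeasureTheory ProbabilityTheory Filter Topology Set
open scoped NNReal ENNReal

namespace Pool.Agent.Lib.MP_1d7982_pr

instance instProbCircle : IsProbabilityMeasure (volume : Measure UnitAddCircle) :=
  ⟨UnitAddCircle.measure_univ⟩

/-- wrapped Gaussian on the circle -/
noncomputable def circ (a : ℝ≥0) : Measure UnitAddCircle :=
  (gaussianReal 0 a).map (fun x : ℝ => (x : UnitAddCircle))

theorem meas_coe : Measurable (fun x : ℝ => (x : UnitAddCircle)) := AddCircle.measurable_mk'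

instance instProbCirc (a : ℝ≥0) : IsProbabilityMeasure (circ a) := by
  unfold circ
  exact Measure.isProbabilityMeasure_map meas_coe.aemeasurable

/-- wrapped Gaussian on the torus -/
noncomputable def gam (a : ℝ≥0) : Measure T3 := Measure.pi (fun _ => circ a)

instance instProbGam (a : ℝ≥0) : IsProbabilityMeasure (gam a) := by
  unfold gam
  infer_instance

theorem gam_eq (a : ℝ≥0) : gam a = (Measure.pi (fun _ : Fin 3 => gaussianReal 0 a)).map
    (fun z i => ((z i : ℝ) : UnitAddCircle)) := by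
  unfold gam circ
  haveI : ∀ i : Fin 3, SigmaFinite (((gaussianReal 0 a).map (fun x : ℝ => (x : UnitAddCircle)))) :=
    fun i => by
      haveI : IsProbabilityMeasure ((gaussianReal 0 a).map (fun x : ℝ => (x : UnitAddCircle))) :=
        Measure.isProbabilityMeasure_map meas_coe.aemeasurable
      infer_instance
  rw [Measure.pi_map_pi (fun _ => meas_coe.aemeasurable)]

theorem circ_conv (a b : ℝ≥0) :
    ((circ a).prod (circ b)).map (fun p => p.1 + p.2) = circ (a + b) := by
  unfold circ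
  rw [Measure.map_prod_map _ _ meas_coe meas_coe, Measure.map_map (by fun_prop)
    (meas_coe.prodMap meas_coe)]
  have h1 : (fun p : UnitAddCircle × UnitAddCircle => p.1 + p.2) ∘
      Prod.map (fun x : ℝ => (x : UnitAddCircle)) (fun x : ℝ => (x : UnitAddCircle)) =
      (fun x : ℝ => (x : UnitAddCircle)) ∘ (fun p : ℝ × ℝ => p.1 + p.2) := by
    ext p
    simp
  rw [h1, ← Measure.map_map meas_coe (by fun_prop)]
  have h2 : ((gaussianReal 0 a).prod (gaussianReal 0 b)).map (fun p : ℝ × ℝ => p.1 + p.2) =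
      gaussianReal 0 (a + b) := by
    have := gaussianReal_conv_gaussianReal (m₁ := 0) (m₂ := 0) (v₁ := a) (v₂ := b)
    rw [add_zero] at this
    exact this
  rw [h2]

theorem gam_conv (a b : ℝ≥0) :
    ((gam a).prod (gam b)).map (fun p => p.1 + p.2) = gam (a + b) := by
  have h1 := measurePreserving_arrowProdEquivProdArrow UnitAddCircle UnitAddCircle (Fin 3)
    (fun _ => circ a) (fun _ => circ b)
  have h2 : (gam a).prod (gam b) = (Measure.pi fun _ : Fin 3 => (circ a).prod (circ b)).map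
      (MeasurableEquiv.arrowProdEquivProdArrow UnitAddCircle UnitAddCircle (Fin 3)) :=
    h1.map_eq.symm
  rw [h2, Measure.map_map (by fun_prop) (MeasurableEquiv.measurable _)]
  have h3 : (fun p : T3 × T3 => p.1 + p.2) ∘
      (MeasurableEquiv.arrowProdEquivProdArrow UnitAddCircle UnitAddCircle (Fin 3)) =
      (fun x i => (fun p : UnitAddCircle × UnitAddCircle => p.1 + p.2) (x i)) := by
    ext x
    rfl
  rw [h3]
  haveI : ∀ i : Fin 3, SigmaFinite
      (((circ a).prod (circ b)).map (fun p : UnitAddCircle × UnitAddCircle => p.1 + p.2)) := by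
    intro i
    rw [circ_conv]
    infer_instance
  rw [Measure.pi_map_pi (fun _ => (by fun_prop : Measurable
    (fun p : UnitAddCircle × UnitAddCircle => p.1 + p.2)).aemeasurable)]
  unfold gam
  rw [circ_conv]

theorem circ_neg (a : ℝ≥0) : (circ a).map (fun x => -x) = circ a := by
  unfold circ
  rw [Measure.map_map (by fun_prop) meas_coe]
  have h1 : (fun x : UnitAddCircle => -x) ∘ (fun x : ℝ => (x : UnitAddCircle)) =
      (fun x : ℝ => (x : UnitAddCircle)) ∘ (fun x : ℝ => -x) := by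
    ext x
    simp
  rw [h1, ← Measure.map_map meas_coe (by fun_prop), gaussianReal_map_neg, neg_zero]

theorem gam_neg (a : ℝ≥0) : (gam a).map (fun x => -x) = gam a := by
  unfold gam
  haveI : ∀ i : Fin 3, SigmaFinite ((circ a).map (fun x => -x)) := by
    intro i
    rw [circ_neg]
    infer_instance
  have h1 : (fun x : T3 => -x) = (fun x i => (fun y : UnitAddCircle => -y) (x i)) := by
    ext x
    rfl
  rw [h1, Measure.pi_map_pi (fun _ => (by fun_prop : Measurable
    (fun y : UnitAddCircle => -y)).aemeasurable), circ_neg]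

/-- monotonicity of finite products of measures -/
theorem pi_mono' {ι : Type*} [Fintype ι] {α : ι → Type*} [∀ i, MeasurableSpace (α i)]
    {μ ν : ∀ i, Measure (α i)} [∀ i, SigmaFinite (μ i)] [∀ i, SigmaFinite (ν i)]
    (h : ∀ i, μ i ≤ ν i) : Measure.pi μ ≤ Measure.pi ν := by
  have h1 : (Measure.pi μ).toOuterMeasure ≤ OuterMeasure.pi (fun i => (ν i).toOuterMeasure) := by
    rw [OuterMeasure.le_pi]
    intro s _
    have : (Measure.pi μ) (Set.univ.pi s) ≤ ∏ i, (ν i) (s i) := by
      rw [Measure.pi_pi]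
      exact Finset.prod_le_prod' (fun i _ => h i (s i))
    exact this
  rw [Measure.le_iff]
  intro s hs
  have h2 : (Measure.pi ν) s = OuterMeasure.pi (fun i => (ν i).toOuterMeasure) s := by
    rw [Measure.pi, toMeasure_apply _ _ hs]
  rw [h2]
  exact h1 s

theorem circ_ge : ((1 / 5 : ℝ≥0) : ℝ≥0∞) • (volume : Measure UnitAddCircle) ≤ circ 1 := by
  rw [Measure.le_iff]
  intro s hs
  unfold circ
  rw [Measure.map_apply meas_coe hs, Measure.smul_apply, smul_eq_mul]
  have h1 := (UnitAddCircle.measurePreserving_mk 0).measure_preimage hs.nullMeasurableSet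
  rw [Measure.restrict_apply (meas_coe hs)] at h1
  rw [← h1, zero_add]
  refine le_trans ?_ (measure_mono (inter_subset_left (t := Ioc (0:ℝ) 1)))
  rw [gaussianReal_apply 0 one_ne_zero]
  have h2 : ∀ x ∈ ((fun x : ℝ => (x : UnitAddCircle)) ⁻¹' s) ∩ Ioc (0:ℝ) 1,
      ((1 / 5 : ℝ≥0) : ℝ≥0∞) ≤ gaussianPDF 0 1 x := by
    intro x hx
    rw [gaussianPDF]
    have h3 : (1 / 5 : ℝ) ≤ gaussianPDFReal 0 1 x := by
      rw [gaussianPDFReal]
      have hx1 : x ^ 2 ≤ 1 := by
        have := hx.2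
        nlinarith [this.1, this.2]
      have hpi : Real.sqrt (2 * Real.pi * ((1 : ℝ≥0) : ℝ)) ≤ 2.51 := by
        rw [Real.sqrt_le_left (by norm_num)]
        have := Real.pi_lt_d2
        norm_num
        nlinarith
      have hpi0 : 0 < Real.sqrt (2 * Real.pi * ((1 : ℝ≥0) : ℝ)) := by
        apply Real.sqrt_pos.mpr
        have := Real.pi_pos
        positivity
      have hexp : (1 / 2 : ℝ) + 1 / 10 ≤ Real.exp (-(x - 0) ^ 2 / (2 * ((1 : ℝ≥0) : ℝ))) := by
        have e1 : (-(1 / 2) : ℝ) ≤ -(x - 0) ^ 2 / (2 * ((1 : ℝ≥0) : ℝ)) := by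
          simp only [sub_zero, NNReal.coe_one, mul_one]
          linarith
        refine le_trans ?_ (Real.exp_le_exp.mpr e1)
        have e2 : Real.exp (-(1 / 2)) = (Real.exp (1 / 2))⁻¹ := Real.exp_neg _
        rw [e2, le_inv_comm₀ (by norm_num) (Real.exp_pos _)]
        have e3 : Real.exp (1 / 2) ^ 2 = Real.exp 1 := by
          rw [← Real.exp_nat_mul]; norm_num
        have e4 := Real.exp_one_lt_d9
        have e5 := Real.exp_pos (1 / 2)
        norm_num
        nlinarith
      calc (1 / 5 : ℝ) ≤ (2.51)⁻¹ * (1 / 2 + 1 / 10) := by norm_num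
        _ ≤ (Real.sqrt (2 * Real.pi * ((1 : ℝ≥0) : ℝ)))⁻¹ *
            Real.exp (-(x - 0) ^ 2 / (2 * ((1 : ℝ≥0) : ℝ))) := by
          apply mul_le_mul _ hexp (by norm_num) (by positivity)
          exact inv_anti₀ hpi0 hpi
    have h4 : ((1 / 5 : ℝ≥0) : ℝ≥0∞) = ENNReal.ofReal (1 / 5) := by
      rw [ENNReal.ofReal]
      congr 1
      rw [Real.toNNReal_of_nonneg (by norm_num)]
      ext
      simp
    rw [h4]
    exact ENNReal.ofReal_le_ofReal h3
  calc ((1 / 5 : ℝ≥0) : ℝ≥0∞) * volume (((fun x : ℝ => (x : UnitAddCircle)) ⁻¹' s) ∩ Ioc (0:ℝ) 1)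
      = ∫⁻ x in ((fun x : ℝ => (x : UnitAddCircle)) ⁻¹' s) ∩ Ioc (0:ℝ) 1,
          ((1 / 5 : ℝ≥0) : ℝ≥0∞) := by rw [lintegral_const, Measure.restrict_apply_univ]
    _ ≤ ∫⁻ x in ((fun x : ℝ => (x : UnitAddCircle)) ⁻¹' s) ∩ Ioc (0:ℝ) 1, gaussianPDF 0 1 x :=
        setLIntegral_mono (measurable_gaussianPDF 0 1) h2

instance instFinSmul : IsFiniteMeasure
    (((1 / 5 : ℝ≥0) : ℝ≥0∞) • (volume : Measure UnitAddCircle)) := by
  refine ⟨?_⟩
  rw [Measure.smul_apply, measure_univ, smul_eq_mul, mul_one]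
  exact ENNReal.coe_lt_top

theorem gam_ge : ((1 / 125 : ℝ≥0) : ℝ≥0∞) • (volume : Measure T3) ≤ gam 1 := by
  have h1 := pi_mono' (fun _ : Fin 3 => circ_ge)
  have h2 : Measure.pi (fun _ : Fin 3 => ((1 / 5 : ℝ≥0) : ℝ≥0∞) • (volume : Measure UnitAddCircle)) =
      ((1 / 125 : ℝ≥0) : ℝ≥0∞) • (volume : Measure T3) := by
    apply Measure.pi_eq
    intro s hs
    rw [Measure.smul_apply, volume_pi_pi]
    simp only [Measure.smul_apply, smul_eq_mul, Fin.prod_univ_three]
    have : ((1 / 125 : ℝ≥0) : ℝ≥0∞) = ((1 / 5 : ℝ≥0) : ℝ≥0∞) * ((1 / 5 : ℝ≥0) : ℝ≥0∞) *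
        ((1 / 5 : ℝ≥0) : ℝ≥0∞) := by
      rw [← ENNReal.coe_mul, ← ENNReal.coe_mul]
      congr 1
      norm_num
    rw [this]
    ring
  rw [h2] at h1
  exact h1

/-! ### the semigroup -/

theorem bdd_C (f : C(T3, ℝ)) (x : T3) : |f x| ≤ ‖f‖ := by
  have := f.norm_coe_le_norm x
  simpa using this

theorem integrable_C (μ : Measure T3) [IsFiniteMeasure μ] (f : C(T3, ℝ)) : Integrable f μ :=
  Integrable.of_bound f.continuous.aestronglyMeasurable ‖f‖
    (Eventually.of_forall (fun x => f.norm_coe_le_norm x))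

theorem integrable_shift (μ : Measure T3) [IsFiniteMeasure μ] (f : C(T3, ℝ)) (x : T3) :
    Integrable (fun y => f (x + y)) μ :=
  Integrable.of_bound (by fun_prop) ‖f‖ (Eventually.of_forall (fun y => f.norm_coe_le_norm _))

/-- heat semigroup -/
noncomputable def Pt (a : ℝ≥0) (f : C(T3, ℝ)) : C(T3, ℝ) where
  toFun x := ∫ y, f (x + y) ∂(gam a)
  continuous_toFun := by
    refine continuous_of_dominated (bound := fun _ => ‖f‖) (fun x => ?_)
      (fun x => Eventually.of_forall (fun y => f.norm_coe_le_norm _)) (integrable_const _)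
      (Eventually.of_forall (fun y => ?_))
    · exact (by fun_prop : Continuous (fun y => f (x + y))).aestronglyMeasurable
    · fun_prop

theorem Pt_apply (a : ℝ≥0) (f : C(T3, ℝ)) (x : T3) : Pt a f x = ∫ y, f (x + y) ∂(gam a) := rfl

theorem Pt_norm_le (a : ℝ≥0) (f : C(T3, ℝ)) : ‖Pt a f‖ ≤ ‖f‖ := by
  rw [ContinuousMap.norm_le _ (norm_nonneg f)]
  intro x
  rw [Pt_apply]
  have := norm_integral_le_of_norm_le_const (μ := gam a) (f := fun y => f (x + y)) (C := ‖f‖)
    (Eventually.of_forall (fun y => f.norm_coe_le_norm _))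
  simpa using this

theorem Pt_sub (a : ℝ≥0) (f g : C(T3, ℝ)) : Pt a (f - g) = Pt a f - Pt a g := by
  ext x
  simp only [Pt_apply, ContinuousMap.sub_apply]
  exact integral_sub (integrable_shift _ f x) (integrable_shift _ g x)

theorem Pt_const (a : ℝ≥0) (c : ℝ) : Pt a (ContinuousMap.const T3 c) = ContinuousMap.const T3 c := by
  ext x
  simp [Pt_apply]

theorem Pt_add (a b : ℝ≥0) (f : C(T3, ℝ)) : Pt (a + b) f = Pt a (Pt b f) := by
  ext x
  rw [Pt_apply, ← gam_conv, integral_map (by fun_prop) (by fun_prop)]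
  rw [integral_prod]
  · rw [Pt_apply]
    apply integral_congr_ae
    filter_upwards with y
    rw [Pt_apply]
    simp only [add_assoc]
  · exact Integrable.of_bound (by fun_prop) ‖f‖
      (Eventually.of_forall (fun y => f.norm_coe_le_norm _))

theorem Pt_symm (a : ℝ≥0) (f g : C(T3, ℝ)) :
    ∫ x, f x * Pt a g x = ∫ x, Pt a f x * g x := by
  have hint : Integrable (fun p : T3 × T3 => f p.1 * g (p.1 + p.2)) ((volume : Measure T3).prod (gam a)) :=
    Integrable.of_bound (by fun_prop) (‖f‖ * ‖g‖)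
      (Eventually.of_forall (fun p => by
        rw [norm_mul]
        exact mul_le_mul (f.norm_coe_le_norm _) (g.norm_coe_le_norm _) (norm_nonneg _)
          (norm_nonneg _)))
  have hint2 : Integrable (fun p : T3 × T3 => f (p.1 - p.2) * g p.1) ((volume : Measure T3).prod (gam a)) :=
    Integrable.of_bound (by fun_prop) (‖f‖ * ‖g‖)
      (Eventually.of_forall (fun p => by
        rw [norm_mul]
        exact mul_le_mul (f.norm_coe_le_norm _) (g.norm_coe_le_norm _) (norm_nonneg _)
          (norm_nonneg _)))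
  calc ∫ x, f x * Pt a g x = ∫ x, ∫ y, f x * g (x + y) ∂(gam a) := by
        apply integral_congr_ae
        filter_upwards with x
        rw [Pt_apply, integral_const_mul]
    _ = ∫ y, (∫ x, f x * g (x + y)) ∂(gam a) := by
        rw [integral_integral_swap hint]
    _ = ∫ y, (∫ x, f (x - y) * g x) ∂(gam a) := by
        apply integral_congr_ae
        filter_upwards with y
        have := integral_add_right_eq_self (μ := (volume : Measure T3))
          (fun x => f (x - y) * g x) y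
        simpa using this
    _ = ∫ x, (∫ y, f (x - y) * g x ∂(gam a)) := by
        exact (integral_integral_swap hint2).symm
    _ = ∫ x, Pt a f x * g x := by
        apply integral_congr_ae
        filter_upwards with x
        rw [integral_mul_const, Pt_apply]
        congr 1
        have h1 : ∫ y, f (x + y) ∂(gam a) = ∫ y, f (x + y) ∂((gam a).map (fun x => -x)) := by
          rw [gam_neg]
        rw [h1, integral_map (by fun_prop) (by fun_prop)]
        simp [sub_eq_add_neg]

theorem Pt_integral (a : ℝ≥0) (f : C(T3, ℝ)) : ∫ x, Pt a f x = ∫ x, f x := by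
  have h := Pt_symm a (ContinuousMap.const T3 1) f
  rw [Pt_const] at h
  simpa using h

theorem Pt_pos (a : ℝ≥0) (f : C(T3, ℝ)) : 0 ≤ ∫ x, f x * Pt a f x := by
  have h1 : a = a / 2 + a / 2 := (add_halves a).symm
  rw [h1, Pt_add, Pt_symm]
  apply integral_nonneg
  intro x
  exact mul_self_nonneg _

/-- one-step mixing -/
theorem Pt_one_mix (f : C(T3, ℝ)) (hf : ∫ x, f x = 0) : ‖Pt 1 f‖ ≤ (1 - 1 / 125) * ‖f‖ := by
  have key : ∀ g : C(T3, ℝ), ∫ x, g x = 0 → ∀ x, Pt 1 g x ≤ (1 - 1 / 125) * ‖g‖ := by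
    intro g hg x
    have hnn : ∀ y, 0 ≤ ‖g‖ - g (x + y) := fun y => by
      have := (abs_le.mp (bdd_C g (x + y))).2
      linarith
    have hi1 : Integrable (fun y => ‖g‖ - g (x + y)) (gam 1) :=
      (integrable_const _).sub (integrable_shift _ g x)
    have h1 : ∫ y, (‖g‖ - g (x + y)) ∂(((1 / 125 : ℝ≥0) : ℝ≥0∞) • (volume : Measure T3)) ≤
        ∫ y, (‖g‖ - g (x + y)) ∂(gam 1) :=
      integral_mono_measure gam_ge (Eventually.of_forall hnn) hi1
    rw [integral_smul_measure, integral_sub (integrable_const _) (integrable_shift _ g x),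
      integral_sub (integrable_const _) (integrable_shift _ g x)] at h1
    have h2 : ∫ y, g (x + y) = 0 := by
      rw [integral_add_left_eq_self (μ := (volume : Measure T3)) (fun y => g y) x, hg]
    rw [h2] at h1
    simp only [integral_const, probReal_univ, smul_eq_mul, one_mul, sub_zero,
      ENNReal.coe_toReal, NNReal.coe_div, NNReal.coe_one] at h1
    rw [Pt_apply]
    norm_num at h1
    linarith
  rw [ContinuousMap.norm_le _ (by positivity)]
  intro x
  rw [Real.norm_eq_abs, abs_le]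
  constructor
  · have h1 := key (-f) (by simp [integral_neg, hf]) x
    have h2 : Pt 1 (-f) x = - Pt 1 f x := by
      simp [Pt_apply, integral_neg]
    rw [h2, norm_neg] at h1
    linarith
  · exact key f hf x

theorem Pt_mix (a : ℝ≥0) (f : C(T3, ℝ)) (hf : ∫ x, f x = 0) :
    ‖Pt a f‖ ≤ 3 * Real.exp (-(1 / 125) * a) * ‖f‖ := by
  have key : ∀ (n : ℕ) (r : ℝ≥0), ‖Pt (r + n) f‖ ≤ (1 - 1 / 125) ^ n * ‖f‖ := by
    intro n r
    induction n with
    | zero => simpa using Pt_norm_le r f
    | succ n ih =>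
      have h1 : r + ((n + 1 : ℕ) : ℝ≥0) = 1 + (r + n) := by push_cast; ring
      rw [h1, Pt_add]
      refine (Pt_one_mix _ (by rw [Pt_integral, hf])).trans ?_
      rw [pow_succ']
      have := mul_le_mul_of_nonneg_left ih (show (0:ℝ) ≤ 1 - 1 / 125 by norm_num)
      linarith
  have h1 : (⌊a⌋₊ : ℝ≥0) ≤ a := Nat.floor_le (zero_le)
  have h2 := key ⌊a⌋₊ (a - ⌊a⌋₊)
  rw [tsub_add_cancel_of_le h1] at h2
  refine h2.trans ?_
  apply mul_le_mul_of_nonneg_right _ (norm_nonneg f)
  have h3 : (1 - 1 / 125 : ℝ) ≤ Real.exp (-(1 / 125)) := by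
    have := Real.add_one_le_exp (-(1 / 125) : ℝ)
    linarith
  have h4 : (1 - 1 / 125 : ℝ) ^ ⌊a⌋₊ ≤ Real.exp (-(1 / 125)) ^ ⌊a⌋₊ :=
    pow_le_pow_left₀ (by norm_num) h3 _
  refine h4.trans ?_
  rw [← Real.exp_nat_mul]
  have h5 : (a : ℝ) < ⌊a⌋₊ + 1 := by
    have := Nat.lt_floor_add_one a
    exact_mod_cast this
  have h6 : (⌊a⌋₊ : ℝ) * (-(1 / 125)) ≤ 1 + -(1 / 125) * a := by linarith
  calc Real.exp ((⌊a⌋₊ : ℝ) * (-(1 / 125))) ≤ Real.exp (1 + -(1 / 125) * a) :=
        Real.exp_le_exp.mpr h6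
    _ = Real.exp 1 * Real.exp (-(1 / 125) * a) := Real.exp_add _ _
    _ ≤ 3 * Real.exp (-(1 / 125) * a) :=
        mul_le_mul_of_nonneg_right (by linarith [Real.exp_one_lt_d9]) (Real.exp_pos _).le

end Pool.Agent.Lib.MP_1d7982_pr
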